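import Mathlib
import Pool.Agent.Q1.M6c.Stop

set_option autoImplicit false
open Finset

/-! # Marks: the soft part of the mixing

`St E U`: `U` is a stopping set. `Ms E U G`: `G` is a function of the labels in `U`. `cr`, `cc`: conditional
expectations (resampling outside of `U`). `marks`: two copies, marks `μ t`, `μ' t` at the levels `t < n`
whose conditional expectations have product form; the difference of the two products of expectations is
bounded by the part without common marks. `tail`: few bad levels. -/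

namespace Pool.Agent.H39.ZF

open Pool.Agent.H75.Perc Pool.Agent.H99.NC Pool.Agent.Q1

variable {α : Type*} [DecidableEq α]

/-- real expectation, fair coins -/
noncomputable def er (E : Finset α) (F : Finset α → ℝ) : ℝ := Ex (fun _ => (1 / 2 : ℝ)) E F

/-- complex expectation, fair coins -/
noncomputable def ec (E : Finset α) (F : Finset α → ℂ) : ℂ := Ec (fun _ => (1 / 2 : ℂ)) E F

/-- stopping set -/
def St (E : Finset α) (U : Finset α → Finset α) : Prop :=
  ∀ ω ω', ω ⊆ E → ω' ⊆ E → U (mix (U ω) ω ω') = U ω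

/-- `G` is a function of the labels in `U` -/
def Ms {β : Type*} (E : Finset α) (U : Finset α → Finset α) (G : Finset α → β) : Prop :=
  ∀ ω ω', ω ⊆ E → ω' ⊆ E → G (mix (U ω) ω ω') = G ω

/-- conditional expectation, real functions -/
noncomputable def cr (E : Finset α) (U : Finset α → Finset α) (F : Finset α → ℝ)
    (ω : Finset α) : ℝ := er E (fun ω' => F (mix (U ω) ω ω'))

/-- conditional expectation, complex functions -/
noncomputable def cc (E : Finset α) (U : Finset α → Finset α) (F : Finset α → ℂ)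
    (ω : Finset α) : ℂ := ec E (fun ω' => F (mix (U ω) ω ω'))

variable {E E' : Finset α}

lemma pb_half : Pb (fun _ : α => (1 / 2 : ℝ)) := Pb.const (by norm_num) (by norm_num)

lemma er_mono {F G : Finset α → ℝ} (h : ∀ ω, ω ⊆ E → F ω ≤ G ω) : er E F ≤ er E G :=
  Ex_mono pb_half h

lemma er_nonneg {F : Finset α → ℝ} (h : ∀ ω, ω ⊆ E → 0 ≤ F ω) : 0 ≤ er E F :=
  Ex_nonneg pb_half h

lemma er_congr {F G : Finset α → ℝ} (h : ∀ ω, ω ⊆ E → F ω = G ω) : er E F = er E G := Ex_congr h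

lemma ec_congr {F G : Finset α → ℂ} (h : ∀ ω, ω ⊆ E → F ω = G ω) : ec E F = ec E G := Ec_congr h

lemma er_smul (c : ℝ) (F : Finset α → ℝ) : er E (fun ω => c * F ω) = c * er E F := Ex_smul _ _ _ _

lemma ec_smul (c : ℂ) (F : Finset α → ℂ) : ec E (fun ω => c * F ω) = c * ec E F := Ec_smul _ _ _ _

lemma er_add (F G : Finset α → ℝ) : er E (fun ω => F ω + G ω) = er E F + er E G := Ex_add _ _ _ _

lemma er_sub (F G : Finset α → ℝ) : er E (fun ω => F ω - G ω) = er E F - er E G := Ex_sub _ _ _ _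

lemma ec_add (F G : Finset α → ℂ) : ec E (fun ω => F ω + G ω) = ec E F + ec E G := Ec_add _ _ _ _

lemma ec_sub (F G : Finset α → ℂ) : ec E (fun ω => F ω - G ω) = ec E F - ec E G := Ec_sub _ _ _ _

lemma ec_sum {ι : Type*} (s : Finset ι) (F : ι → Finset α → ℂ) :
    ec E (fun ω => ∑ i ∈ s, F i ω) = ∑ i ∈ s, ec E (F i) := Ec_sum _ _ _ _

@[simp] lemma er_const (c : ℝ) : er E (fun _ => c) = c := Ex_const _ _ _

lemma ec_norm {F : Finset α → ℂ} {g : Finset α → ℝ} (h : ∀ ω, ω ⊆ E → ‖F ω‖ ≤ g ω) :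
    ‖ec E F‖ ≤ er E g := Ec_half_norm h

lemma er_swap (F : Finset α → Finset α → ℝ) :
    er E (fun ω => er E' (fun ω' => F ω ω')) = er E' (fun ω' => er E (fun ω => F ω ω')) :=
  Ex_swap _ _ _ _ _

lemma ec_swap (F : Finset α → Finset α → ℂ) :
    ec E (fun ω => ec E' (fun ω' => F ω ω')) = ec E' (fun ω' => ec E (fun ω => F ω ω')) :=
  Ec_swap _ _ _ _ _

variable {U U' : Finset α → Finset α}

/-- conditioning, real functions -/
lemma er_cond (hU : St E U) {G : Finset α → ℝ} (hG : Ms E U G) (F : Finset α → ℝ) :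
    er E (fun ω => G ω * F ω) = er E (fun ω => G ω * cr E U F ω) := by
  unfold er
  rw [← Ex_resample1 _ E U hU (fun ω => G ω * F ω)]
  refine Ex_congr fun ω hω => ?_
  unfold cr er
  rw [← Ex_smul]
  exact Ex_congr fun ω' hω' => by rw [hG ω ω' hω hω']

/-- conditioning, complex functions -/
lemma ec_cond (hU : St E U) {G : Finset α → ℂ} (hG : Ms E U G) (F : Finset α → ℂ) :
    ec E (fun ω => G ω * F ω) = ec E (fun ω => G ω * cc E U F ω) := by
  unfold ec
  rw [← Ec_resample1 E U hU (fun ω => G ω * F ω)]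
  refine Ec_congr fun ω hω => ?_
  unfold cc ec
  rw [← Ec_smul]
  exact Ec_congr fun ω' hω' => by rw [hG ω ω' hω hω']

lemma Ms.comp {β γ : Type*} {G : Finset α → β} (h : Ms E U G) (φ : β → γ) :
    Ms E U (fun ω => φ (G ω)) := fun ω ω' hω hω' => congrArg φ (h ω ω' hω hω')

lemma Ms.comp2 {β γ δ : Type*} {G : Finset α → β} {H : Finset α → γ} (h : Ms E U G)
    (h' : Ms E U H) (φ : β → γ → δ) : Ms E U (fun ω => φ (G ω) (H ω)) := fun ω ω' hω hω' => by
  change φ (G (mix (U ω) ω ω')) (H (mix (U ω) ω ω')) = φ (G ω) (H ω)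
  rw [h ω ω' hω hω', h' ω ω' hω hω']

/-- the product of conditional expectations, two copies -/
lemma er2_cond (hU : St E U) (hU' : St E' U') {G : Finset α → Finset α → ℝ}
    (hG1 : ∀ η ⊆ E', Ms E U (fun ω => G ω η)) (hG2 : ∀ ω ⊆ E, Ms E' U' (fun η => G ω η))
    (F F' : Finset α → ℝ) :
    er E (fun ω => er E' (fun η => G ω η * (F ω * F' η))) =
      er E (fun ω => er E' (fun η => G ω η * (cr E U F ω * cr E' U' F' η))) := by
  have h1 : er E (fun ω => er E' (fun η => G ω η * (F ω * F' η))) =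
      er E (fun ω => er E' (fun η => G ω η * (F ω * cr E' U' F' η))) := by
    refine er_congr fun ω hω => ?_
    have h2 := er_cond hU' (hG2 ω hω) F'
    have h3 : ∀ H : Finset α → ℝ, er E' (fun η => G ω η * (F ω * H η)) =
        F ω * er E' (fun η => G ω η * H η) := by
      intro H
      rw [← er_smul]
      exact er_congr fun η _ => by ring
    rw [h3, h3, h2]
  rw [h1, er_swap, er_swap (F := fun ω η => G ω η * (cr E U F ω * cr E' U' F' η))]
  refine er_congr fun η hη => ?_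
  have h2 := er_cond hU (hG1 η hη) F
  have h3 : ∀ H : Finset α → ℝ, er E (fun ω => G ω η * (H ω * cr E' U' F' η)) =
      cr E' U' F' η * er E (fun ω => G ω η * H ω) := by
    intro H
    rw [← er_smul]
    exact er_congr fun ω _ => by ring
  rw [h3, h3, h2]

/-- the product of conditional expectations, two copies, complex -/
lemma ec2_cond (hU : St E U) (hU' : St E' U') {G : Finset α → Finset α → ℂ}
    (hG1 : ∀ η ⊆ E', Ms E U (fun ω => G ω η)) (hG2 : ∀ ω ⊆ E, Ms E' U' (fun η => G ω η))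
    (F F' : Finset α → ℂ) :
    ec E (fun ω => ec E' (fun η => G ω η * (F ω * F' η))) =
      ec E (fun ω => ec E' (fun η => G ω η * (cc E U F ω * cc E' U' F' η))) := by
  have h1 : ec E (fun ω => ec E' (fun η => G ω η * (F ω * F' η))) =
      ec E (fun ω => ec E' (fun η => G ω η * (F ω * cc E' U' F' η))) := by
    refine ec_congr fun ω hω => ?_
    have h2 := ec_cond hU' (hG2 ω hω) F'
    have h3 : ∀ H : Finset α → ℂ, ec E' (fun η => G ω η * (F ω * H η)) =
        F ω * ec E' (fun η => G ω η * H η) := by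
      intro H
      rw [← ec_smul]
      exact ec_congr fun η _ => by ring
    rw [h3, h3, h2]
  rw [h1, ec_swap, ec_swap (F := fun ω η => G ω η * (cc E U F ω * cc E' U' F' η))]
  refine ec_congr fun η hη => ?_
  have h2 := ec_cond hU (hG1 η hη) F
  have h3 : ∀ H : Finset α → ℂ, ec E (fun ω => G ω η * (H ω * cc E' U' F' η)) =
      cc E' U' F' η * ec E (fun ω => G ω η * H ω) := by
    intro H
    rw [← ec_smul]
    exact ec_congr fun ω _ => by ring
  rw [h3, h3, h2]

/-! ### Marks -/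

/-- product of the unmarked factors of the levels before `t` -/
noncomputable def phi (μ μ' : ℕ → Finset α → ℝ) (t : ℕ) (ω η : Finset α) : ℝ :=
  ∏ s ∈ range t, (1 - μ s ω * μ' s η)

open Classical in
/-- number of common nice levels before `t` -/
noncomputable def cnt (nice nice' : ℕ → Finset α → Prop) (t : ℕ) (ω η : Finset α) : ℕ :=
  ((range t).filter fun s => nice s ω ∧ nice' s η).card

/-- the marks of one copy -/
structure Mk (E : Finset α) (n : ℕ) (U : ℕ → Finset α → Finset α) (μ : ℕ → Finset α → ℝ)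
    (nice : ℕ → Finset α → Prop) (A : Finset α → ℝ) (θ : ℝ) : Prop where
  st : ∀ t < n, St E (U t)
  mr : ∀ s t, s < t → t < n → Ms E (U t) (μ s)
  nr : ∀ s t, s ≤ t → t < n → Ms E (U t) (nice s)
  m0 : ∀ t < n, ∀ ω ⊆ E, 0 ≤ μ t ω ∧ μ t ω ≤ 1
  a0 : ∀ ω ⊆ E, 0 ≤ A ω
  con : ∀ t < n, ∀ ω ⊆ E, nice t ω →
    θ * cr E (U t) A ω ≤ cr E (U t) (fun ω => A ω * μ t ω) ω

lemma mix_sub {V ω ω' : Finset α} (h : ω ⊆ E) (h' : ω' ⊆ E) : mix V ω ω' ⊆ E := by
  intro x hx
  rcases mem_mix.1 hx with h1 | h1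
  · exact h h1.1
  · exact h' h1.1

lemma cr_nonneg {F : Finset α → ℝ} (h : ∀ ω ⊆ E, 0 ≤ F ω) {ω : Finset α} (hω : ω ⊆ E) :
    0 ≤ cr E U F ω := er_nonneg fun _ hω' => h _ (mix_sub hω hω')

variable {n : ℕ} {Us Us' : ℕ → Finset α → Finset α} {μ μ' : ℕ → Finset α → ℝ}
  {nice nice' : ℕ → Finset α → Prop} {A A' : Finset α → ℝ} {θ r : ℝ}

omit [DecidableEq α] in
lemma phi_succ (t : ℕ) (ω η : Finset α) :
    phi μ μ' (t + 1) ω η = phi μ μ' t ω η * (1 - μ t ω * μ' t η) := by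
  unfold phi; rw [prod_range_succ]

omit [DecidableEq α] in
open Classical in
lemma cnt_succ (t : ℕ) (ω η : Finset α) :
    cnt nice nice' (t + 1) ω η = cnt nice nice' t ω η + if nice t ω ∧ nice' t η then 1 else 0 := by
  unfold cnt
  rw [range_add_one, filter_insert]
  split_ifs with h
  · rw [card_insert_of_notMem]
    simp
  · rfl

lemma mark_bd (h : Mk E n Us μ nice A θ) (h' : Mk E' n Us' μ' nice' A' θ) {t : ℕ} (ht : t < n)
    {ω η : Finset α} (hω : ω ⊆ E) (hη : η ⊆ E') :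
    0 ≤ 1 - μ t ω * μ' t η ∧ 1 - μ t ω * μ' t η ≤ 1 := by
  have h1 := h.m0 t ht ω hω
  have h2 := h'.m0 t ht η hη
  constructor
  · nlinarith
  · have := mul_nonneg h1.1 h2.1
    linarith

lemma phi_bd (h : Mk E n Us μ nice A θ) (h' : Mk E' n Us' μ' nice' A' θ) {t : ℕ} (ht : t ≤ n)
    {ω η : Finset α} (hω : ω ⊆ E) (hη : η ⊆ E') :
    0 ≤ phi μ μ' t ω η ∧ phi μ μ' t ω η ≤ 1 := by
  unfold phi
  constructor
  · exact prod_nonneg fun s hs => (mark_bd h h' (by have := mem_range.1 hs; omega) hω hη).1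
  · exact prod_le_one (fun s hs => (mark_bd h h' (by have := mem_range.1 hs; omega) hω hη).1)
      fun s hs => (mark_bd h h' (by have := mem_range.1 hs; omega) hω hη).2

lemma phi_ms1 (h : Mk E n Us μ nice A θ) {t : ℕ} (ht : t < n) (η : Finset α) :
    Ms E (Us t) (fun ω => phi μ μ' t ω η) := by
  intro ω ω' hω hω'
  change phi μ μ' t (mix (Us t ω) ω ω') η = phi μ μ' t ω η
  unfold phi
  refine prod_congr rfl fun s hs => ?_
  rw [h.mr s t (mem_range.1 hs) ht ω ω' hω hω']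

lemma phi_ms2 (h' : Mk E' n Us' μ' nice' A' θ) {t : ℕ} (ht : t < n) (ω : Finset α) :
    Ms E' (Us' t) (fun η => phi μ μ' t ω η) := by
  intro η η' hη hη'
  change phi μ μ' t ω (mix (Us' t η) η η') = phi μ μ' t ω η
  unfold phi
  refine prod_congr rfl fun s hs => ?_
  rw [h'.mr s t (mem_range.1 hs) ht η η' hη hη']

open Classical in
lemma cnt_ms1 (h : Mk E n Us μ nice A θ) {t : ℕ} (ht : t < n) (η : Finset α) :
    Ms E (Us t) (fun ω => cnt nice nice' t ω η) := by
  intro ω ω' hω hω'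
  change cnt nice nice' t (mix (Us t ω) ω ω') η = cnt nice nice' t ω η
  unfold cnt
  have e : ∀ s ∈ range t, (nice s (mix (Us t ω) ω ω') ∧ nice' s η ↔ nice s ω ∧ nice' s η) :=
    fun s hs => by rw [h.nr s t (mem_range.1 hs).le ht ω ω' hω hω']
  rw [filter_congr e]

open Classical in
lemma cnt_ms2 (h' : Mk E' n Us' μ' nice' A' θ) {t : ℕ} (ht : t < n) (ω : Finset α) :
    Ms E' (Us' t) (fun η => cnt nice nice' t ω η) := by
  intro η η' hη hη'
  change cnt nice nice' t ω (mix (Us' t η) η η') = cnt nice nice' t ω η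
  unfold cnt
  have e : ∀ s ∈ range t, (nice s ω ∧ nice' s (mix (Us' t η) η η') ↔ nice s ω ∧ nice' s η) :=
    fun s hs => by rw [h'.nr s t (mem_range.1 hs).le ht η η' hη hη']
  rw [filter_congr e]

/-- the potential -/
noncomputable def Vt (E E' : Finset α) (μ μ' : ℕ → Finset α → ℝ)
    (nice nice' : ℕ → Finset α → Prop) (A A' : Finset α → ℝ) (r : ℝ) (t : ℕ) : ℝ :=
  er E (fun ω => er E' (fun η => (phi μ μ' t ω η * r ^ cnt nice nice' t ω η) * (A ω * A' η)))

open Classical in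
theorem Vt_step (h : Mk E n Us μ nice A θ) (h' : Mk E' n Us' μ' nice' A' θ) (hθ : 0 ≤ θ)
    (hr : 1 ≤ r) (hr' : r * (1 - θ ^ 2) ≤ 1) {t : ℕ} (ht : t < n) :
    Vt E E' μ μ' nice nice' A A' r (t + 1) ≤ Vt E E' μ μ' nice nice' A A' r t := by
  set G : Finset α → Finset α → ℝ := fun ω η => phi μ μ' t ω η * r ^ cnt nice nice' t ω η with hG
  set B : Finset α → Finset α → ℝ := fun ω η => if nice t ω ∧ nice' t η then r else 1 with hB
  have hG1 : ∀ η ⊆ E', Ms E (Us t) (fun ω => G ω η) := fun η _ =>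
    (phi_ms1 h ht η).comp2 (cnt_ms1 h ht η) (fun a b => a * r ^ b)
  have hG2 : ∀ ω ⊆ E, Ms E' (Us' t) (fun η => G ω η) := fun ω _ =>
    (phi_ms2 h' ht ω).comp2 (cnt_ms2 h' ht ω) (fun a b => a * r ^ b)
  have hB1 : ∀ η ⊆ E', Ms E (Us t) (fun ω => G ω η * B ω η) := fun η hη =>
    (hG1 η hη).comp2 (h.nr t t le_rfl ht) (fun a b => a * if b ∧ nice' t η then r else 1)
  have hB2 : ∀ ω ⊆ E, Ms E' (Us' t) (fun η => G ω η * B ω η) := fun ω hω =>
    (hG2 ω hω).comp2 (h'.nr t t le_rfl ht) (fun a b => a * if nice t ω ∧ b then r else 1)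
  have hG0 : ∀ ω ⊆ E, ∀ η ⊆ E', 0 ≤ G ω η := fun ω hω η hη =>
    mul_nonneg (phi_bd h h' ht.le hω hη).1 (by positivity)
  have e1 : Vt E E' μ μ' nice nice' A A' r (t + 1) =
      er E (fun ω => er E' (fun η => (G ω η * B ω η) * (cr E (Us t) A ω * cr E' (Us' t) A' η))) -
      er E (fun ω => er E' (fun η => (G ω η * B ω η) *
        (cr E (Us t) (fun ω => A ω * μ t ω) ω * cr E' (Us' t) (fun η => A' η * μ' t η) η))) := by
    rw [← er2_cond (h.st t ht) (h'.st t ht) hB1 hB2, ← er2_cond (h.st t ht) (h'.st t ht) hB1 hB2,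
      ← er_sub]
    unfold Vt
    refine er_congr fun ω _ => ?_
    rw [← er_sub]
    refine er_congr fun η _ => ?_
    rw [phi_succ, cnt_succ]
    simp only [hG, hB]
    split_ifs
    · rw [pow_succ]; ring
    · rw [add_zero]; ring
  rw [e1, ← er_sub]
  unfold Vt
  rw [er2_cond (h.st t ht) (h'.st t ht) hG1 hG2]
  refine er_mono fun ω hω => ?_
  rw [← er_sub]
  refine er_mono fun η hη => ?_
  have a1 : 0 ≤ cr E (Us t) A ω := cr_nonneg h.a0 hω
  have a2 : 0 ≤ cr E' (Us' t) A' η := cr_nonneg h'.a0 hη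
  have b1 : 0 ≤ cr E (Us t) (fun ω => A ω * μ t ω) ω :=
    cr_nonneg (fun ω hω => mul_nonneg (h.a0 ω hω) (h.m0 t ht ω hω).1) hω
  have b2 : 0 ≤ cr E' (Us' t) (fun η => A' η * μ' t η) η :=
    cr_nonneg (fun η hη => mul_nonneg (h'.a0 η hη) (h'.m0 t ht η hη).1) hη
  have g0 := hG0 ω hω η hη
  rw [← mul_sub, mul_assoc]
  refine mul_le_mul_of_nonneg_left ?_ g0
  simp only [hB]
  split_ifs with hn
  · have c1 := h.con t ht ω hω hn.1
    have c2 := h'.con t ht η hη hn.2
    have c3 : θ * cr E (Us t) A ω * (θ * cr E' (Us' t) A' η) ≤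
        cr E (Us t) (fun ω => A ω * μ t ω) ω * cr E' (Us' t) (fun η => A' η * μ' t η) η :=
      mul_le_mul c1 c2 (mul_nonneg hθ a2) b1
    have c4 : 0 ≤ cr E (Us t) A ω * cr E' (Us' t) A' η := mul_nonneg a1 a2
    nlinarith [mul_le_mul_of_nonneg_right hr' c4,
      mul_le_mul_of_nonneg_left c3 (by linarith : (0 : ℝ) ≤ r)]
  · have := mul_nonneg b1 b2
    linarith

theorem Vt_le (h : Mk E n Us μ nice A θ) (h' : Mk E' n Us' μ' nice' A' θ) (hθ : 0 ≤ θ)
    (hr : 1 ≤ r) (hr' : r * (1 - θ ^ 2) ≤ 1) :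
    ∀ t ≤ n, Vt E E' μ μ' nice nice' A A' r t ≤ er E A * er E' A' := by
  intro t
  induction t with
  | zero =>
    intro _
    unfold Vt phi cnt
    simp only [range_zero, prod_empty, filter_empty, card_empty, pow_zero, mul_one, one_mul]
    apply le_of_eq
    have e1 : ∀ ω : Finset α, er E' (fun η => A ω * A' η) = er E' A' * A ω := fun ω => by
      rw [er_smul, mul_comm]
    simp only [e1]
    rw [er_smul, mul_comm]
  | succ t ih => exact fun ht => (Vt_step h h' hθ hr hr' (by omega)).trans (ih (by omega))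

open Classical in
/-- the part without common marks -/
theorem rest_le (h : Mk E n Us μ nice A θ) (h' : Mk E' n Us' μ' nice' A' θ) (hθ : 0 ≤ θ)
    (hr : 1 ≤ r) (hr' : r * (1 - θ ^ 2) ≤ 1) (m : ℕ) :
    er E (fun ω => er E' (fun η => phi μ μ' n ω η * (A ω * A' η))) ≤
      r⁻¹ ^ m * (er E A * er E' A') +
      er E (fun ω => er E' (fun η =>
        (if cnt nice nice' n ω η < m then 1 else 0) * (A ω * A' η))) := by
  have h1 := Vt_le h h' hθ hr hr' n le_rfl
  have hr0 : 0 < r := by linarith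
  have h2 : 0 ≤ r⁻¹ ^ m := by positivity
  refine le_trans ?_ (add_le_add_left (mul_le_mul_of_nonneg_left h1 h2) _)
  unfold Vt
  rw [← er_smul, ← er_add]
  refine er_mono fun ω hω => ?_
  rw [← er_smul, ← er_add]
  refine er_mono fun η hη => ?_
  have p := phi_bd h h' le_rfl hω hη
  have a := mul_nonneg (h.a0 ω hω) (h'.a0 η hη)
  split_ifs with hc
  · have : 0 ≤ r⁻¹ ^ m * (phi μ μ' n ω η * r ^ cnt nice nice' n ω η * (A ω * A' η)) :=
      mul_nonneg h2 (mul_nonneg (mul_nonneg p.1 (by positivity)) a)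
    nlinarith
  · rw [zero_mul, add_zero]
    push Not at hc
    have e1 : r ^ m ≤ r ^ cnt nice nice' n ω η := pow_le_pow_right₀ hr hc
    have e2 : 1 ≤ r⁻¹ ^ m * r ^ cnt nice nice' n ω η := by
      rw [inv_pow, ← div_eq_inv_mul, le_div_iff₀ (by positivity)]
      linarith
    have e3 : 0 ≤ phi μ μ' n ω η * (A ω * A' η) := mul_nonneg p.1 a
    calc phi μ μ' n ω η * (A ω * A' η) ≤
        (r⁻¹ ^ m * r ^ cnt nice nice' n ω η) * (phi μ μ' n ω η * (A ω * A' η)) :=
          le_mul_of_one_le_left e3 e2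
      _ = _ := by ring

/-! ### The identity -/

/-- product form of the marked parts -/
def PF (E : Finset α) (U : Finset α → Finset α) (f : Finset α → ℂ) (μ : Finset α → ℝ)
    (h : Finset α → ℂ) (ν : ℂ) : Prop :=
  ∀ ω ⊆ E, cc E U (fun ω => f ω * (μ ω : ℂ)) ω = h ω * ν

lemma telescope (h : ℕ → ℂ) (n : ℕ) : h 0 = (∑ t ∈ range n, (h t - h (t + 1))) + h n := by
  induction n with
  | zero => simp
  | succ n ih => rw [sum_range_succ]; rw [ih]; ring

open Classical in
theorem marks (h : Mk E n Us μ nice A θ) (h' : Mk E' n Us' μ' nice' A' θ) (hθ : 0 ≤ θ)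
    (hr : 1 ≤ r) (hr' : r * (1 - θ ^ 2) ≤ 1) {f0 f1 g0 g1 : Finset α → ℂ}
    (nf0 : ∀ ω ⊆ E, ‖f0 ω‖ ≤ A ω) (nf1 : ∀ ω ⊆ E, ‖f1 ω‖ ≤ A ω)
    (ng0 : ∀ ω ⊆ E', ‖g0 ω‖ ≤ A' ω) (ng1 : ∀ ω ⊆ E', ‖g1 ω‖ ≤ A' ω)
    {H H' : ℕ → Finset α → ℂ} {ν0 ν1 : ℕ → ℂ}
    (pf0 : ∀ t < n, PF E (Us t) f0 (μ t) (H t) (ν0 t))
    (pf1 : ∀ t < n, PF E (Us t) f1 (μ t) (H t) (ν1 t))
    (pg0 : ∀ t < n, PF E' (Us' t) g0 (μ' t) (H' t) (ν0 t))
    (pg1 : ∀ t < n, PF E' (Us' t) g1 (μ' t) (H' t) (ν1 t)) (m : ℕ) {δ : ℝ}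
    (hδ : er E (fun ω => er E' (fun η =>
      (if cnt nice nice' n ω η < m then 1 else 0) * (A ω * A' η))) ≤ δ) :
    ‖ec E f0 * ec E' g1 - ec E f1 * ec E' g0‖ ≤ 2 * (r⁻¹ ^ m * (er E A * er E' A') + δ) := by
  have key : ∀ f g : Finset α → ℂ, ∀ ν ν' : ℕ → ℂ, (∀ ω ⊆ E, ‖f ω‖ ≤ A ω) →
      (∀ ω ⊆ E', ‖g ω‖ ≤ A' ω) → (∀ t < n, PF E (Us t) f (μ t) (H t) (ν t)) →
      (∀ t < n, PF E' (Us' t) g (μ' t) (H' t) (ν' t)) →
      ∃ R : ℂ, ‖R‖ ≤ r⁻¹ ^ m * (er E A * er E' A') + δ ∧ ec E f * ec E' g =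
        (∑ t ∈ range n, (ν t * ν' t) *
          ec E (fun ω => ec E' (fun η => (phi μ μ' t ω η : ℂ) * (H t ω * H' t η)))) + R := by
    intro f g ν ν' nf ng pf pg
    set T : ℕ → ℂ := fun t =>
      ec E (fun ω => ec E' (fun η => (phi μ μ' t ω η : ℂ) * (f ω * g η))) with hT
    have e0 : ec E f * ec E' g = T 0 := by
      simp only [hT, phi, range_zero, prod_empty, Complex.ofReal_one, one_mul]
      have e1 : ∀ ω : Finset α, ec E' (fun η => f ω * g η) = ec E' g * f ω := fun ω => by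
        rw [ec_smul, mul_comm]
      simp only [e1]
      rw [ec_smul, mul_comm]
    refine ⟨T n, ?_, ?_⟩
    · refine le_trans ?_ ((rest_le h h' hθ hr hr' m).trans (add_le_add_right hδ _))
      refine ec_norm fun ω hω => ec_norm fun η hη => ?_
      rw [norm_mul, norm_mul, Complex.norm_real, Real.norm_eq_abs,
        abs_of_nonneg (phi_bd h h' le_rfl hω hη).1]
      exact mul_le_mul_of_nonneg_left (mul_le_mul (nf ω hω) (ng η hη) (norm_nonneg _)
        (h.a0 ω hω)) (phi_bd h h' le_rfl hω hη).1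
    · rw [e0, telescope T n]
      congr 1
      refine sum_congr rfl fun t ht => ?_
      have ht' := mem_range.1 ht
      have e1 : T t - T (t + 1) =
          ec E (fun ω => ec E' (fun η => (phi μ μ' t ω η : ℂ) *
            ((f ω * (μ t ω : ℂ)) * (g η * (μ' t η : ℂ))))) := by
        simp only [hT]
        rw [← ec_sub]
        refine ec_congr fun ω _ => ?_
        rw [← ec_sub]
        refine ec_congr fun η _ => ?_
        rw [phi_succ]
        push_cast
        ring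
      rw [e1, ec2_cond (h.st t ht') (h'.st t ht')
        (fun η _ => (phi_ms1 h ht' η).comp (fun x : ℝ => (x : ℂ)))
        (fun ω _ => (phi_ms2 h' ht' ω).comp (fun x : ℝ => (x : ℂ)))]
      rw [← ec_smul]
      refine ec_congr fun ω hω => ?_
      rw [← ec_smul]
      refine ec_congr fun η hη => ?_
      rw [pf t ht' ω hω, pg t ht' η hη]
      ring
  obtain ⟨R1, hR1, e1⟩ := key f0 g1 ν0 ν1 nf0 ng1 pf0 pg1
  obtain ⟨R2, hR2, e2⟩ := key f1 g0 ν1 ν0 nf1 ng0 pf1 pg0
  have e3 : ec E f0 * ec E' g1 - ec E f1 * ec E' g0 = R1 - R2 := by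
    rw [e1, e2]
    have : (∑ t ∈ range n, (ν0 t * ν1 t) *
        ec E (fun ω => ec E' (fun η => (phi μ μ' t ω η : ℂ) * (H t ω * H' t η)))) =
        ∑ t ∈ range n, (ν1 t * ν0 t) *
        ec E (fun ω => ec E' (fun η => (phi μ μ' t ω η : ℂ) * (H t ω * H' t η))) :=
      sum_congr rfl fun t _ => by rw [mul_comm (ν0 t)]
    rw [this]
    ring
  rw [e3]
  calc ‖R1 - R2‖ ≤ ‖R1‖ + ‖R2‖ := norm_sub_le _ _
    _ ≤ _ := by linarith

/-! ### Few bad levels -/

open Classical in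
/-- number of bad events: `b1` up to the level `t`, `b2` before the level `t` -/
noncomputable def nb (b1 b2 : ℕ → Finset α → Prop) (t : ℕ) (ω : Finset α) : ℕ :=
  ((range (t + 1)).filter fun s => b1 s ω).card + ((range t).filter fun s => b2 s ω).card

/-- bad levels of one copy -/
structure Bd (E : Finset α) (n : ℕ) (U : ℕ → Finset α → Finset α)
    (al b1 b2 : ℕ → Finset α → Prop) (ε : ℝ) : Prop where
  st : ∀ t < n, St E (U t)
  ar : ∀ t < n, Ms E (U t) (al t)
  r1 : ∀ s t, s ≤ t → t < n → Ms E (U t) (b1 s)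
  r2 : ∀ s t, s ≤ t → t < n → Ms E (U t) (b2 s)
  dec : ∀ t < n, ∀ ω ⊆ E, al (t + 1) ω → al t ω
  near : ∀ t < n, ∀ ω ⊆ E, cr E (U t) (fun ω => ind (al (t + 1) ω ∧ b1 (t + 1) ω)) ω ≤ ε
  close : ∀ t < n, ∀ ω ⊆ E, b2 t ω → cr E (U t) (fun ω => ind (al (t + 1) ω)) ω ≤ ε

variable {al b1 b2 : ℕ → Finset α → Prop} {ε κ : ℝ}

lemma cf_succ (p : ℕ → Prop) [DecidablePred p] (t : ℕ) : ((range (t + 1)).filter p).card =
    ((range t).filter p).card + if p t then 1 else 0 := by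
  rw [range_add_one, filter_insert]
  split_ifs with h
  · rw [card_insert_of_notMem]
    simp
  · rfl

omit [DecidableEq α] in
open Classical in
lemma nb_succ (t : ℕ) (ω : Finset α) : nb b1 b2 (t + 1) ω =
    nb b1 b2 t ω + ((if b1 (t + 1) ω then 1 else 0) + if b2 t ω then 1 else 0) := by
  unfold nb
  rw [cf_succ (fun s => b1 s ω) (t + 1), cf_succ (fun s => b2 s ω) t]
  ring

open Classical in
lemma nb_ms (h : Bd E n Us al b1 b2 ε) {t : ℕ} (ht : t < n) : Ms E (Us t) (nb b1 b2 t) := by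
  intro ω ω' hω hω'
  unfold nb
  have e1 : ∀ s ∈ range (t + 1), (b1 s (mix (Us t ω) ω ω') ↔ b1 s ω) :=
    fun s hs => by rw [h.r1 s t (by have := mem_range.1 hs; omega) ht ω ω' hω hω']
  have e2 : ∀ s ∈ range t, (b2 s (mix (Us t ω) ω ω') ↔ b2 s ω) :=
    fun s hs => by rw [h.r2 s t (by have := mem_range.1 hs; omega) ht ω ω' hω hω']
  rw [filter_congr e1, filter_congr e2]

/-- the supermartingale -/
theorem tail_step (h : Bd E n Us al b1 b2 ε) (hκ : 1 ≤ κ) (hε : κ ^ 2 * ε ≤ 1)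
    {t : ℕ} (ht : t < n) :
    er E (fun ω => κ ^ nb b1 b2 (t + 1) ω * ind (al (t + 1) ω)) ≤
      2 * er E (fun ω => κ ^ nb b1 b2 t ω * ind (al t ω)) := by
  classical
  have hκ0 : 0 < κ := by linarith
  -- upper bound by conditional expectations
  set B : Finset α → ℝ := fun ω => if b2 t ω then κ else 1 with hB
  have hBm : Ms E (Us t) (fun ω => κ ^ nb b1 b2 t ω * B ω * ind (al t ω)) := by
    refine Ms.comp2 (Ms.comp2 (nb_ms h ht) (h.r2 t t le_rfl ht) (fun a b => κ ^ a *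
      if b then κ else 1)) (h.ar t ht) (fun a b => a * ind b)
  have e1 : er E (fun ω => κ ^ nb b1 b2 (t + 1) ω * ind (al (t + 1) ω)) ≤
      er E (fun ω => (κ ^ nb b1 b2 t ω * B ω * ind (al t ω)) *
        (ind (al (t + 1) ω) + κ * ind (al (t + 1) ω ∧ b1 (t + 1) ω))) := by
    refine er_mono fun ω hω => ?_
    by_cases ha : al (t + 1) ω
    · have ha' := h.dec t ht ω hω ha
      rw [ind_true ha, ind_true ha', nb_succ, pow_add, pow_add]
      have hp : 0 < κ ^ nb b1 b2 t ω := by positivity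
      by_cases h1 : b1 (t + 1) ω
      · rw [ind_true ⟨ha, h1⟩]
        simp only [hB]
        split_ifs <;> simp <;> nlinarith
      · rw [ind_false (P := al (t + 1) ω ∧ b1 (t + 1) ω) (fun h => h1 h.2)]
        simp only [hB]
        split_ifs <;> simp
    · rw [ind_false ha, ind_false (P := al (t + 1) ω ∧ b1 (t + 1) ω) (fun h => ha h.1)]
      simp
  refine e1.trans ?_
  rw [er_cond (h.st t ht) hBm, ← er_smul]
  refine er_mono fun ω hω => ?_
  have e2 : cr E (Us t) (fun ω => ind (al (t + 1) ω) + κ * ind (al (t + 1) ω ∧ b1 (t + 1) ω)) ω =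
      cr E (Us t) (fun ω => ind (al (t + 1) ω)) ω +
      κ * cr E (Us t) (fun ω => ind (al (t + 1) ω ∧ b1 (t + 1) ω)) ω := by
    unfold cr
    rw [er_add, er_smul]
  rw [e2]
  have f1 : cr E (Us t) (fun ω => ind (al (t + 1) ω)) ω ≤ 1 := by
    unfold cr
    refine (er_mono (G := fun _ => (1 : ℝ)) fun _ _ => ind_le_one _).trans ?_
    rw [er_const]
  have f2 := h.near t ht ω hω
  have f3 : 0 ≤ cr E (Us t) (fun ω => ind (al (t + 1) ω ∧ b1 (t + 1) ω)) ω :=
    cr_nonneg (fun _ _ => ind_nonneg _) hω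
  have hp : 0 < κ ^ nb b1 b2 t ω := by positivity
  have hi := ind_nonneg (al t ω)
  have key : B ω * (cr E (Us t) (fun ω => ind (al (t + 1) ω)) ω +
      κ * cr E (Us t) (fun ω => ind (al (t + 1) ω ∧ b1 (t + 1) ω)) ω) ≤ 2 := by
    have g1 : κ * ε ≤ 1 := by nlinarith
    simp only [hB]
    split_ifs with h2
    · have f4 := h.close t ht ω hω h2
      nlinarith [mul_le_mul_of_nonneg_left f2 hκ0.le, mul_le_mul_of_nonneg_left f4 hκ0.le]
    · nlinarith [mul_le_mul_of_nonneg_left f2 hκ0.le]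
  calc _ = (κ ^ nb b1 b2 t ω * ind (al t ω)) * (B ω * (cr E (Us t) (fun ω => ind (al (t + 1) ω)) ω +
      κ * cr E (Us t) (fun ω => ind (al (t + 1) ω ∧ b1 (t + 1) ω)) ω)) := by ring
    _ ≤ (κ ^ nb b1 b2 t ω * ind (al t ω)) * 2 := mul_le_mul_of_nonneg_left key (by positivity)
    _ = _ := by ring

theorem tail_le (h : Bd E n Us al b1 b2 ε) (hκ : 1 ≤ κ) (hε : κ ^ 2 * ε ≤ 1) :
    ∀ t ≤ n, er E (fun ω => κ ^ nb b1 b2 t ω * ind (al t ω)) ≤ 2 ^ t * κ := by
  classical
  intro t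
  induction t with
  | zero =>
    intro _
    rw [pow_zero, one_mul]
    refine (er_mono (G := fun _ => κ) fun ω _ => ?_).trans (by rw [er_const])
    have h1 : nb b1 b2 0 ω ≤ 1 := by
      unfold nb
      simp only [zero_add, range_zero, filter_empty, card_empty, add_zero]
      exact (card_filter_le _ _).trans (by simp)
    have h2 : κ ^ nb b1 b2 0 ω ≤ κ ^ 1 := pow_le_pow_right₀ hκ h1
    rw [pow_one] at h2
    have h3 := ind_le_one (al 0 ω)
    have h4 := ind_nonneg (al 0 ω)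
    have h5 : 0 < κ ^ nb b1 b2 0 ω := by positivity
    nlinarith
  | succ t ih =>
    intro ht
    refine (tail_step h hκ hε (by omega)).trans ?_
    rw [pow_succ]
    nlinarith [ih (by omega)]

open Classical in
/-- **Few bad levels.** -/
theorem tail (h : Bd E n Us al b1 b2 ε) (hκ : 1 ≤ κ) (hε : κ ^ 2 * ε ≤ 1)
    {nice : ℕ → Finset α → Prop}
    (hn : ∀ s < n, ∀ ω ⊆ E, al n ω → ¬ b1 s ω → ¬ b2 s ω → nice s ω)
    {A : Finset α → ℝ} {C : ℝ} (hC : 0 ≤ C) (hA : ∀ ω ⊆ E, A ω ≤ C * ind (al n ω)) (k : ℕ) :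
    er E (fun ω => (if k ≤ ((range n).filter fun s => ¬ nice s ω).card then 1 else 0) * A ω) ≤
      C * (κ⁻¹ ^ k * (2 ^ n * κ)) := by
  have hκ0 : 0 < κ := by linarith
  refine le_trans ?_ (mul_le_mul_of_nonneg_left
    (mul_le_mul_of_nonneg_left (tail_le h hκ hε n le_rfl) (by positivity)) hC)
  rw [← er_smul, ← er_smul]
  refine er_mono fun ω hω => ?_
  have hi := ind_nonneg (al n ω)
  split_ifs with hk
  · rw [one_mul]
    refine (hA ω hω).trans (mul_le_mul_of_nonneg_left ?_ hC)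
    by_cases hal : al n ω
    swap
    · rw [ind_false hal]; simp
    have h1 : ((range n).filter fun s => ¬ nice s ω).card ≤ nb b1 b2 n ω := by
      unfold nb
      refine le_trans (card_le_card (t := ((range (n + 1)).filter fun s => b1 s ω) ∪
        ((range n).filter fun s => b2 s ω)) ?_) (card_union_le _ _)
      intro s hs
      rw [mem_filter, mem_range] at hs
      rw [mem_union, mem_filter, mem_filter, mem_range, mem_range]
      by_contra hcon
      rw [not_or, not_and, not_and] at hcon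
      exact hs.2 (hn s hs.1 ω hω hal (hcon.1 (by omega)) (hcon.2 hs.1))
    have h2 : κ ^ k ≤ κ ^ nb b1 b2 n ω := pow_le_pow_right₀ hκ (hk.trans h1)
    have h3 : 1 ≤ κ⁻¹ ^ k * κ ^ nb b1 b2 n ω := by
      rw [inv_pow, ← div_eq_inv_mul, le_div_iff₀ (by positivity)]
      linarith
    calc ind (al n ω) ≤ (κ⁻¹ ^ k * κ ^ nb b1 b2 n ω) * ind (al n ω) :=
          le_mul_of_one_le_left hi h3
      _ = _ := by ring
  · rw [zero_mul]
    positivity

end Pool.Agent.H39.ZF
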