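import Mathlib
import Pool.Agent.H53.ZF.Pcs
import Pool.Agent.H39.ZF.Soft
import Pool.Agent.Q1.M6f.Sym

set_option autoImplicit false
open Finset

/-! # Generating functions of the turning: symmetries, bounds; general plane environments -/

namespace Pool.Agent.H39.ZF

open Pool.Agent.H75.Perc Pool.Agent.H75.TwoArm Pool.Agent.Q1 Pool.Agent.H53.ZF Pool.Agent.ZF
open Pool.Agent.H99.NC Pool.Agent.Q1.M6c

/-! ### Transport -/

lemma at_tr (X : Env) (g : CSym) {y : ℂ} (hy : y ≠ 0) {ω : Finset (ℤ × ℤ)} (hω : ω ⊆ X.E)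
    (c : ℤ × ℤ) : at' (X.tr g) y (ω.map g.t.toEmbedding) (g.s c) = y ^ g.k * at' X y ω c := by
  unfold at'
  rw [Env.len_tr g hω, mul_sum]
  refine sum_congr rfl fun i _ => ?_
  rw [Env.z_tr, Env.K_tr]
  by_cases h : X.z ω i = c
  · rw [if_pos h, if_pos (by rw [h]), zpow_add₀ hy, mul_comm]
  · rw [if_neg h, if_neg (fun h' => h (g.s.injective h')), mul_zero]

theorem gn_tr (X : Env) (g : CSym) {y : ℂ} (hy : y ≠ 0) (c : ℤ × ℤ) :
    gn (X.tr g) y (g.s c) = y ^ g.k * gn X y c := by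
  unfold gn
  have hc : (X.tr g).E.card = X.E.card := card_map _
  have hs : ∑ ω ∈ (X.tr g).E.powerset, at' (X.tr g) y ω (g.s c) =
      y ^ g.k * ∑ ω ∈ X.E.powerset, at' X y ω c := by
    rw [Env.powerset_tr, Finset.sum_map, Finset.mul_sum]
    refine Finset.sum_congr rfl fun ω hω => ?_
    exact at_tr X g hy (mem_powerset.1 hω) c
  rw [hc, hs]; ring

lemma tr_iter (g : CSym) (w : Finset (ℤ × ℤ)) (c : ℤ × ℤ) (i : ℕ) :
    (nx (w.map g.t.toEmbedding))^[i] (g.s c) = g.s ((nx w)^[i] c) :=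
  CSym.iter_map g.s (g.nx_map w) i c

theorem GE.tr {X : Env} {W : Finset (ℤ × ℤ)} (h : GE X W) (g : CSym) :
    GE (X.tr g) (W.map g.t.toEmbedding) := by
  refine ⟨?_, ?_, ?_, ?_⟩
  · exact (disjoint_map _).2 h.disj
  · intro e he
    rw [mem_map_equiv] at he
    have := g.hodd _ (h.oddW _ he)
    rwa [Equiv.apply_symm_apply] at this
  · intro ω' hω' i
    obtain ⟨ω, hω, rfl⟩ := g.exists_pre hω'
    rw [Env.z_tr, ← map_union, h.zz ω hω]
    exact (tr_iter g _ _ i).symm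
  · intro ω' hω' i
    obtain ⟨ω, hω, rfl⟩ := g.exists_pre hω'
    rw [Env.K_tr, ← map_union, h.KK' ω hω]
    exact (CSym.KK_map g.s (g.nx_map _) (g.del_map _) _ _ _ _).symm

theorem GE_of_plane {X : Env} {W : Finset (ℤ × ℤ)} (h : PlaneEnv X W) : GE X W :=
  ⟨h.disj, h.oddW, h.zz, h.KK'⟩

/-! ### Values -/

lemma at_eq {X : Env} {y : ℂ} {ω : Finset (ℤ × ℤ)} (hω : ω ⊆ X.E) {i : ℕ} (hi : i < X.len ω) :
    at' X y ω (X.z ω i) = y ^ X.K ω i := by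
  unfold at'
  rw [Finset.sum_eq_single i]
  · rw [if_pos rfl]
  · intro j hj hji
    rw [if_neg fun h => hji (Env.z_inj hω (mem_range.1 hj) hi h)]
  · intro h
    exact absurd (mem_range.2 hi) h

lemma at_zero {X : Env} {y : ℂ} {ω : Finset (ℤ × ℤ)} {c : ℤ × ℤ} (h : ¬ Vis X c ω) :
    at' X y ω c = 0 := by
  unfold at'
  refine sum_eq_zero fun i hi => ?_
  rw [if_neg fun h1 => h ⟨i, mem_range.1 hi, h1⟩]

lemma at_norm {X : Env} {y : ℂ} (hy : ‖y‖ = 1) {ω : Finset (ℤ × ℤ)} (hω : ω ⊆ X.E) (c : ℤ × ℤ) :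
    ‖at' X y ω c‖ = ind (Vis X c ω) := by
  by_cases h : Vis X c ω
  · obtain ⟨i, hi, rfl⟩ := h
    rw [at_eq hω hi, norm_zpow, hy, one_zpow, ind_true ⟨i, hi, rfl⟩]
  · rw [at_zero h, ind_false h, norm_zero]

lemma at_one {X : Env} {ω : Finset (ℤ × ℤ)} (hω : ω ⊆ X.E) (c : ℤ × ℤ) :
    at' X 1 ω c = (ind (Vis X c ω) : ℝ) := by
  by_cases h : Vis X c ω
  · rw [ind_true h]
    obtain ⟨i, hi, rfl⟩ := h
    rw [at_eq hω hi, one_zpow, Complex.ofReal_one]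
  · rw [at_zero h, ind_false h, Complex.ofReal_zero]

lemma gn_ec (X : Env) (y : ℂ) (c : ℤ × ℤ) : gn X y c = ec X.E (fun ω => at' X y ω c) := by
  unfold gn ec
  rw [Ec_half]

/-- the number of visited corners at the origin -/
noncomputable def AA (X : Env) (ω : Finset (ℤ × ℤ)) : ℝ :=
  ∑ c ∈ ({(0, 0), (1, 0), (0, 1), (1, 1)} : Finset (ℤ × ℤ)), ind (Vis X c ω)

lemma AA_nonneg (X : Env) (ω : Finset (ℤ × ℤ)) : 0 ≤ AA X ω :=
  sum_nonneg fun _ _ => ind_nonneg _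

lemma mem_C4 {c : ℤ × ℤ} : c ∈ ({(0, 0), (1, 0), (0, 1), (1, 1)} : Finset (ℤ × ℤ)) ↔ C0 c := by
  unfold C0
  simp only [mem_insert, mem_singleton]

lemma at_le_AA {X : Env} {y : ℂ} (hy : ‖y‖ = 1) {ω : Finset (ℤ × ℤ)} (hω : ω ⊆ X.E) {c : ℤ × ℤ}
    (hc : C0 c) : ‖at' X y ω c‖ ≤ AA X ω := by
  rw [at_norm hy hω]
  exact single_le_sum (f := fun c => ind (Vis X c ω)) (fun _ _ => ind_nonneg _) (mem_C4.2 hc)

lemma AA_le (X : Env) (ω : Finset (ℤ × ℤ)) {P : Prop} (h : ∀ c, C0 c → Vis X c ω → P) :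
    AA X ω ≤ 4 * ind P := by
  unfold AA
  refine (sum_le_sum fun c hc => ind_mono (h c (mem_C4.1 hc))).trans ?_
  rw [sum_const, nsmul_eq_mul]
  have : ({(0, 0), (1, 0), (0, 1), (1, 1)} : Finset (ℤ × ℤ)).card = 4 := by decide
  rw [this]
  norm_num

end Pool.Agent.H39.ZF
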