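import Mathlib
import Pool.Agent.H53.ZF.Pcs
import Pool.Agent.H39.ZF.Soft

set_option autoImplicit false
open Finset

/-! # T8: the stopping sets -/

namespace Pool.Agent.H39.ZF

open Pool.Agent.H75.Perc Pool.Agent.H75.TwoArm Pool.Agent.Q1 Pool.Agent.H53.ZF

variable {w w' B E W : Finset (ℤ × ℤ)} {c0 : ℤ × ℤ}

lemma nx_cg {c : ℤ × ℤ} (h : lab c ∈ w ↔ lab c ∈ w') : nx w' c = nx w c := by
  unfold nx
  by_cases h1 : lab c ∈ w
  · rw [if_pos h1, if_pos (h.1 h1)]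
  · rw [if_neg h1, if_neg fun h2 => h1 (h.2 h2)]

lemma pv_cg {c : ℤ × ℤ} (h : plab c ∈ w ↔ plab c ∈ w') : pv w' c = pv w c := by
  unfold plab at h
  unfold pv
  split_ifs at h ⊢ <;> first | rfl | (exfalso; tauto)

/-- `w` and `w'` agree on the labels met in `w` -/
def AgM (w w' B : Finset (ℤ × ℤ)) (c0 : ℤ × ℤ) : Prop := ∀ l, MetL w B c0 l → (l ∈ w ↔ l ∈ w')

lemma agF (h : AgM w w' B c0) {n : ℕ} (hn : ∀ i < n, lab ((nx w)^[i] c0) ∉ B) :
    ∀ i ≤ n, (nx w')^[i] c0 = (nx w)^[i] c0 := by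
  intro i
  induction i with
  | zero => intro _; rfl
  | succ i ih =>
    intro hi
    rw [Function.iterate_succ_apply', Function.iterate_succ_apply', ih (by omega)]
    exact nx_cg (h _ (Or.inl ⟨i, rfl, fun j hj => hn j (by omega)⟩))

lemma agB (h : AgM w w' B c0) {n : ℕ} (hn : ∀ i < n, plab ((pv w)^[i] c0) ∉ B) :
    ∀ i ≤ n, (pv w')^[i] c0 = (pv w)^[i] c0 := by
  intro i
  induction i with
  | zero => intro _; rfl
  | succ i ih =>
    intro hi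
    rw [Function.iterate_succ_apply', Function.iterate_succ_apply', ih (by omega)]
    exact pv_cg (h _ (Or.inr ⟨i, rfl, fun j hj => hn j (by omega)⟩))

lemma agF' (h : AgM w w' B c0) {n : ℕ} (hn : ∀ i < n, lab ((nx w')^[i] c0) ∉ B) :
    ∀ i < n, lab ((nx w)^[i] c0) ∉ B := by
  intro i
  induction i using Nat.strong_induction_on with
  | _ i ih =>
    intro hi
    rw [← agF h (fun j hj => ih j hj (by omega)) i le_rfl]
    exact hn i hi

lemma agB' (h : AgM w w' B c0) {n : ℕ} (hn : ∀ i < n, plab ((pv w')^[i] c0) ∉ B) :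
    ∀ i < n, plab ((pv w)^[i] c0) ∉ B := by
  intro i
  induction i using Nat.strong_induction_on with
  | _ i ih =>
    intro hi
    rw [← agB h (fun j hj => ih j hj (by omega)) i le_rfl]
    exact hn i hi

lemma metL_ag (h : AgM w w' B c0) (e : ℤ × ℤ) : MetL w' B c0 e ↔ MetL w B c0 e := by
  constructor
  · rintro (⟨n, hn, hB⟩ | ⟨n, hn, hB⟩)
    · have h1 := agF' h (n := n + 1) (fun i hi => hB i (by omega))
      have h2 := agF h h1 n (by omega)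
      exact Or.inl ⟨n, by rw [← h2]; exact hn, fun i hi => h1 i (by omega)⟩
    · have h1 := agB' h (n := n + 1) (fun i hi => hB i (by omega))
      have h2 := agB h h1 n (by omega)
      exact Or.inr ⟨n, by rw [← h2]; exact hn, fun i hi => h1 i (by omega)⟩
  · rintro (⟨n, hn, hB⟩ | ⟨n, hn, hB⟩)
    · have h1 := agF h (n := n + 1) (fun i hi => hB i (by omega))
      exact Or.inl ⟨n, by rw [h1 n (by omega)]; exact hn, fun i hi => by
        rw [h1 i (by omega)]; exact hB i hi⟩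
    · have h1 := agB h (n := n + 1) (fun i hi => hB i (by omega))
      exact Or.inr ⟨n, by rw [h1 n (by omega)]; exact hn, fun i hi => by
        rw [h1 i (by omega)]; exact hB i hi⟩

lemma tipF_ag (h : AgM w w' B c0) (a : ℤ × ℤ) : TipF w' B c0 a ↔ TipF w B c0 a := by
  constructor
  · rintro ⟨n, hn, ha, hB⟩
    have h1 := agF' h hB
    exact ⟨n, by rw [← agF h h1 n le_rfl]; exact hn, ha, h1⟩
  · rintro ⟨n, hn, ha, hB⟩
    have h1 := agF h hB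
    exact ⟨n, by rw [h1 n le_rfl]; exact hn, ha, fun i hi => by rw [h1 i hi.le]; exact hB i hi⟩

lemma tipB_ag (h : AgM w w' B c0) (a : ℤ × ℤ) : TipB w' B c0 a ↔ TipB w B c0 a := by
  constructor
  · rintro ⟨n, hn, ha, hB⟩
    have h1 := agB' h hB
    exact ⟨n, by rw [← agB h h1 n le_rfl]; exact hn, ha, h1⟩
  · rintro ⟨n, hn, ha, hB⟩
    have h1 := agB h hB
    exact ⟨n, by rw [h1 n le_rfl]; exact hn, ha, fun i hi => by rw [h1 i hi.le]; exact hB i hi⟩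

lemma mem_ExL {e : ℤ × ℤ} : e ∈ ExL E w B c0 ↔ e ∈ E ∧ MetL w B c0 e := by
  classical
  unfold ExL
  exact mem_filter

lemma agM_of {R : ℤ} {ω ω' : Finset (ℤ × ℤ)} (hω : ω ⊆ E) (hω' : ω' ⊆ E)
    (h : ω ∩ H53.ZF.AR E W c0 R ω = ω' ∩ H53.ZF.AR E W c0 R ω) : AgM (ω ∪ W) (ω' ∪ W) (BB R) c0 := by
  intro l hl
  by_cases hE : l ∈ E
  · have h1 : l ∈ H53.ZF.AR E W c0 R ω := mem_union_right _ (mem_ExL.2 ⟨hE, hl⟩)
    have h2 : l ∈ ω ↔ l ∈ ω' := by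
      have := Finset.ext_iff.1 h l
      rw [mem_inter, mem_inter] at this
      tauto
    rw [mem_union, mem_union, h2]
  · rw [mem_union, mem_union]
    constructor
    · rintro (h1 | h1)
      · exact absurd (hω h1) hE
      · exact Or.inr h1
    · rintro (h1 | h1)
      · exact absurd (hω' h1) hE
      · exact Or.inr h1

lemma metL_notMem {R : ℤ} {e : ℤ × ℤ} (h : MetL w (BB R) c0 e) : e ∉ BB R := by
  rcases h with ⟨n, hn, hB⟩ | ⟨n, hn, hB⟩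
  · rw [← hn]; exact hB n le_rfl
  · rw [← hn]; exact hB n le_rfl

lemma BB_mono {a b : ℤ} (h : a ≤ b) : BB a ⊆ BB b :=
  Bx_sub (by omega) (by omega) (by omega) (by omega)

lemma metL_mono {B' : Finset (ℤ × ℤ)} (hB : B' ⊆ B) {e : ℤ × ℤ} (h : MetL w B c0 e) :
    MetL w B' c0 e := by
  rcases h with ⟨n, hn, h⟩ | ⟨n, hn, h⟩
  · exact Or.inl ⟨n, hn, fun i hi h' => h i hi (hB h')⟩
  · exact Or.inr ⟨n, hn, fun i hi h' => h i hi (hB h')⟩

lemma AR_mono {R R' : ℤ} (h : 2 * R' ≤ R) (h0 : R' ≤ R) (ω : Finset (ℤ × ℤ)) :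
    H53.ZF.AR E W c0 R ω ⊆ H53.ZF.AR E W c0 R' ω := by
  intro e he
  rcases mem_union.1 he with h1 | h1
  · rw [mem_sdiff] at h1
    exact mem_union_left _ (mem_sdiff.2 ⟨h1.1, fun h2 => h1.2 (BB_mono (by omega) h2)⟩)
  · rw [mem_ExL] at h1
    exact mem_union_right _ (mem_ExL.2 ⟨h1.1, metL_mono (BB_mono h0) h1.2⟩)

theorem ar_ag {R : ℤ} {ω ω' : Finset (ℤ × ℤ)} (hω : ω ⊆ E) (hω' : ω' ⊆ E)
    (h : ω ∩ H53.ZF.AR E W c0 R ω = ω' ∩ H53.ZF.AR E W c0 R ω) : H53.ZF.AR E W c0 R ω' = H53.ZF.AR E W c0 R ω := by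
  unfold H53.ZF.AR
  congr 1
  ext e
  rw [mem_ExL, mem_ExL, metL_ag (agM_of hω hω' h)]

/-- **T8.** (for `0 ≤ R`, `2 R' ≤ R`) -/
theorem t8 {R : ℤ} {ω ω' : Finset (ℤ × ℤ)} (hω : ω ⊆ E) (hω' : ω' ⊆ E)
    (h : ω ∩ H53.ZF.AR E W c0 R ω = ω' ∩ H53.ZF.AR E W c0 R ω) :
    H53.ZF.AR E W c0 R ω' = H53.ZF.AR E W c0 R ω ∧
    (∀ a, TipF (ω' ∪ W) (BB R) c0 a ↔ TipF (ω ∪ W) (BB R) c0 a) ∧
    (∀ b, TipB (ω' ∪ W) (BB R) c0 b ↔ TipB (ω ∪ W) (BB R) c0 b) ∧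
    (∀ e, MetL (ω' ∪ W) (BB R) c0 e ↔ MetL (ω ∪ W) (BB R) c0 e) :=
  ⟨ar_ag hω hω' h, tipF_ag (agM_of hω hω' h), tipB_ag (agM_of hω hω' h), metL_ag (agM_of hω hω' h)⟩

lemma AR_sub {R : ℤ} {ω : Finset (ℤ × ℤ)} : H53.ZF.AR E W c0 R ω ⊆ E := by
  intro e he
  rcases mem_union.1 he with h1 | h1
  · exact (mem_sdiff.1 h1).1
  · exact (mem_ExL.1 h1).1

theorem T8_holds : T8 := by
  intro E W c0 R ω ω' hω hω' _ h
  obtain ⟨h1, h2, h3, h4⟩ := t8 hω hω' h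
  refine ⟨h1, h2, h3, h4, fun R' hR => ?_⟩
  by_cases h0 : R' ≤ R
  · exact AR_mono hR h0 ω
  · intro e he
    refine mem_union_left _ (mem_sdiff.2 ⟨AR_sub he, fun h5 => ?_⟩)
    unfold H75.TwoArm.BB at h5
    have h6 := mem_Bx.1 h5
    omega

/-- the stopping property in the form of `mix` -/
lemma st_AR {R : ℤ} : St E (H53.ZF.AR E W c0 R) := by
  intro ω ω' hω hω'
  refine ar_ag hω (mix_sub hω hω') ?_
  ext e
  rw [mem_inter, mem_inter, mem_mix]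
  tauto

end Pool.Agent.H39.ZF
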