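import Mathlib
import Pool.Agent.H39.ZF.EnvL
import Pool.Agent.H39.ZF.StopT8

set_option autoImplicit false
open Finset

/-! # One level: marks and bad events from the one-scale theorem -/

namespace Pool.Agent.H39.ZF

open Pool.Agent.H75.Perc Pool.Agent.H75.TwoArm Pool.Agent.Q1 Pool.Agent.H53.ZF Pool.Agent.ZF
open Pool.Agent.H99.NC Pool.Agent.Q1.M6c

/-- the known labels at the level `R` -/
noncomputable def ar (X : Env) (W : Finset (ℤ × ℤ)) (R : ℤ) (ω : Finset (ℤ × ℤ)) :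
    Finset (ℤ × ℤ) := H53.ZF.AR X.E W X.c0 R ω

/-- the known part of the configuration -/
noncomputable def hat (X : Env) (W : Finset (ℤ × ℤ)) (R : ℤ) (ω : Finset (ℤ × ℤ)) :
    Finset (ℤ × ℤ) := ω ∩ ar X W R ω

variable {X : Env} {W : Finset (ℤ × ℤ)} {R : ℤ}

lemma hat_sub (ω : Finset (ℤ × ℤ)) : hat X W R ω ⊆ X.E := inter_subset_right.trans AR_sub

/-- the same state -/
def Same (X : Env) (W : Finset (ℤ × ℤ)) (R : ℤ) (ω ω' : Finset (ℤ × ℤ)) : Prop :=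
  ω ∩ ar X W R ω = ω' ∩ ar X W R ω

lemma Same.ar {ω ω' : Finset (ℤ × ℤ)} (h : Same X W R ω ω') (hω : ω ⊆ X.E) (hω' : ω' ⊆ X.E) :
    ar X W R ω' = ar X W R ω := ar_ag hω hω' h

lemma Same.hat {ω ω' : Finset (ℤ × ℤ)} (h : Same X W R ω ω') (hω : ω ⊆ X.E) (hω' : ω' ⊆ X.E) :
    hat X W R ω' = hat X W R ω := by
  unfold H39.ZF.hat; rw [h.ar hω hω']; exact h.symm

lemma same_hat (ω : Finset (ℤ × ℤ)) : Same X W R ω (hat X W R ω) := by
  unfold Same hat; rw [inter_assoc, inter_self]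

lemma same_mix (ω ω' : Finset (ℤ × ℤ)) : Same X W R ω (mix (ar X W R ω) ω ω') := by
  unfold Same
  ext e
  rw [mem_inter, mem_inter, mem_mix]
  tauto

lemma ar_mono {R' : ℤ} (h : 2 * R' ≤ R) (h0 : R' ≤ R) (ω : Finset (ℤ × ℤ)) :
    ar X W R ω ⊆ ar X W R' ω := AR_mono h h0 ω

/-- agreement at a later level implies agreement at an earlier level -/
lemma same_mix' {R' : ℤ} (h : R' = R ∨ (2 * R' ≤ R ∧ R' ≤ R)) (ω ω' : Finset (ℤ × ℤ)) :
    Same X W R ω (mix (ar X W R' ω) ω ω') := by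
  unfold Same
  have h1 : ar X W R ω ⊆ ar X W R' ω := by
    rcases h with h | h
    · rw [h]
    · exact ar_mono h.1 h.2 ω
  ext e
  rw [mem_inter, mem_inter, mem_mix]
  constructor
  · rintro ⟨h2, h3⟩
    exact ⟨Or.inl ⟨h2, h1 h3⟩, h3⟩
  · rintro ⟨h2 | h2, h3⟩
    · exact ⟨h2.1, h3⟩
    · exact absurd (h1 h3) h2.2

section
variable {ω ω' : Finset (ℤ × ℤ)} {u : ℤ}

lemma Same.alive (h : Same X W R ω ω') (hω : ω ⊆ X.E) (hω' : ω' ⊆ X.E) :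
    Alive R (ω' ∪ W) X.c0 ↔ Alive R (ω ∪ W) X.c0 := by
  unfold Alive
  simp only [(t8 hω hω' h).2.1]

lemma Same.near (h : Same X W R ω ω') (hω : ω ⊆ X.E) (hω' : ω' ⊆ X.E) :
    Near R u (ω' ∪ W) X.c0 ↔ Near R u (ω ∪ W) X.c0 := by
  unfold Near
  simp only [(t8 hω hω' h).2.1, (t8 hω hω' h).2.2.1, (t8 hω hω' h).2.2.2]

lemma Same.close (h : Same X W R ω ω') (hω : ω ⊆ X.E) (hω' : ω' ⊆ X.E) :
    Close R u (ω' ∪ W) X.c0 ↔ Close R u (ω ∪ W) X.c0 := by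
  unfold Close
  simp only [(t8 hω hω' h).2.1, (t8 hω hω' h).2.2.1]

lemma Same.nice (h : Same X W R ω ω') (hω : ω ⊆ X.E) (hω' : ω' ⊆ X.E) :
    Nice R u (ω' ∪ W) X.c0 ↔ Nice R u (ω ∪ W) X.c0 := by
  unfold Nice
  rw [h.alive hω hω', h.near hω hω', h.close hω hω']

end

/-- the one-scale statement for one environment -/
def Sc (Uy : ℂ → ℤ × ℤ → ℂ) (Uh C1 : ℝ) (t R u : ℤ) (X : Env) (W : Finset (ℤ × ℤ)) : Prop :=
  ∀ ω ⊆ X.E,
  (Nice R u (ω ∪ W) X.c0 → ∃ ρ : Finset (ℤ × ℤ) → ℝ, (∀ w, 0 ≤ ρ w ∧ ρ w ≤ 1) ∧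
    (∀ w w' : Finset (ℤ × ℤ), w \ BB (2 * t) = w' \ BB (2 * t) → ρ w = ρ w') ∧
    (∀ y : ℂ, ‖y‖ = 1 → ∃ a : ℂ, ‖a‖ = 1 ∧ ∀ c, C0 c →
      CE X.E (ar X W R ω) ω (fun w => ρ w * Fc X y c w) = a * Uy y c) ∧
    ∑ c ∈ ({(0, 0), (1, 0), (0, 1), (1, 1)} : Finset (ℤ × ℤ)),
      CE X.E (ar X W R ω) ω (fun w => ρ w * Fc X 1 c w) = Uh) ∧
  (∀ c, C0 c → ‖CE X.E (ar X W R ω) ω (fun w => Fc X 1 c w)‖ ≤ C1 * (R : ℝ) ^ (-(1 / 4 : ℝ)))

lemma cc_CE (E : Finset (ℤ × ℤ)) (U : Finset (ℤ × ℤ) → Finset (ℤ × ℤ))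
    (F : Finset (ℤ × ℤ) → ℂ) (ω : Finset (ℤ × ℤ)) : cc E U F ω = CE E (U ω) ω F := by
  unfold cc ec CE
  rw [Ec_half]

variable {Uy : ℂ → ℤ × ℤ → ℂ} {Uh C1 : ℝ} {t u : ℤ}

open Classical in
/-- the mark -/
noncomputable def mkk (h : Sc Uy Uh C1 t R u X W) (ω : Finset (ℤ × ℤ)) : ℝ :=
  if hn : Nice R u (hat X W R ω ∪ W) X.c0 then ((h (hat X W R ω) (hat_sub ω)).1 hn).choose ω else 0

open Classical in
/-- the outer factor -/
noncomputable def hhh (h : Sc Uy Uh C1 t R u X W) (y : ℂ) (ω : Finset (ℤ × ℤ)) : ℂ :=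
  if hn : Nice R u (hat X W R ω ∪ W) X.c0 ∧ ‖y‖ = 1 then
    (((h (hat X W R ω) (hat_sub ω)).1 hn.1).choose_spec.2.2.1 y hn.2).choose else 0

lemma mkk_bd (h : Sc Uy Uh C1 t R u X W) (ω : Finset (ℤ × ℤ)) : 0 ≤ mkk h ω ∧ mkk h ω ≤ 1 := by
  unfold mkk
  split_ifs with hn
  · exact ((h (hat X W R ω) (hat_sub ω)).1 hn).choose_spec.1 ω
  · exact ⟨le_rfl, zero_le_one⟩

lemma mkk_congr (h : Sc Uy Uh C1 t R u X W) {ω ω' : Finset (ℤ × ℤ)}
    (he : hat X W R ω' = hat X W R ω) (hb : ω' \ BB (2 * t) = ω \ BB (2 * t)) :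
    mkk h ω' = mkk h ω := by
  unfold mkk
  by_cases hn : Nice R u (hat X W R ω ∪ W) X.c0
  · have hn' : Nice R u (hat X W R ω' ∪ W) X.c0 := by rw [he]; exact hn
    rw [dif_pos hn, dif_pos hn']
    have key : ∀ (η η' : Finset (ℤ × ℤ)) (k : η ⊆ X.E) (k' : η' ⊆ X.E) (_ : η' = η)
        (m : Nice R u (η ∪ W) X.c0) (m' : Nice R u (η' ∪ W) X.c0),
        ((h η' k').1 m').choose ω' = ((h η k).1 m).choose ω := by
      intro η η' k k' e m m'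
      subst e
      exact ((h η' k').1 m').choose_spec.2.1 _ _ hb
    exact key _ _ (hat_sub ω) (hat_sub ω') he hn hn'
  · have hn' : ¬ Nice R u (hat X W R ω' ∪ W) X.c0 := by rw [he]; exact hn
    rw [dif_neg hn, dif_neg hn']

/-- on the fibre of `ω` the mark is the weight of the state of `ω` -/
lemma mkk_mix (h : Sc Uy Uh C1 t R u X W) {ω : Finset (ℤ × ℤ)} (hω : ω ⊆ X.E)
    (hn : Nice R u (hat X W R ω ∪ W) X.c0) {ω' : Finset (ℤ × ℤ)} (hω' : ω' ⊆ X.E) :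
    mkk h (mix (ar X W R ω) ω ω') =
      ((h (hat X W R ω) (hat_sub ω)).1 hn).choose (mix (ar X W R ω) ω ω') := by
  have he := (same_mix (X := X) (W := W) (R := R) ω ω').hat hω (mix_sub hω hω')
  unfold mkk
  have hn' : Nice R u (hat X W R (mix (ar X W R ω) ω ω') ∪ W) X.c0 := by rw [he]; exact hn
  rw [dif_pos hn']
  have key : ∀ (η η' : Finset (ℤ × ℤ)) (k : η ⊆ X.E) (k' : η' ⊆ X.E) (_ : η' = η)
      (m : Nice R u (η ∪ W) X.c0) (m' : Nice R u (η' ∪ W) X.c0),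
      ((h η' k').1 m').choose = ((h η k).1 m).choose := by
    intro η η' k k' e m m'
    subst e
    rfl
  exact congrFun (key _ _ (hat_sub _) (hat_sub _) he hn hn') _

lemma mix_hat (ω ω' : Finset (ℤ × ℤ)) :
    mix (ar X W R ω) (hat X W R ω) ω' = mix (ar X W R ω) ω ω' := by
  ext e
  rw [mem_mix, mem_mix]
  unfold hat
  rw [mem_inter]
  tauto

lemma CE_hat {ω : Finset (ℤ × ℤ)} (hω : ω ⊆ X.E) (G : Finset (ℤ × ℤ) → ℂ) :
    CE X.E (ar X W R (hat X W R ω)) (hat X W R ω) G = CE X.E (ar X W R ω) ω G := by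
  unfold CE
  rw [(same_hat ω).ar hω (hat_sub ω)]
  simp only [mix_hat]

/-- product form -/
theorem mkk_PF (h : Sc Uy Uh C1 t R u X W) {y : ℂ} (hy : ‖y‖ = 1) {c : ℤ × ℤ} (hc : C0 c) :
    PF X.E (ar X W R) (fun ω => at' X y ω c) (mkk h) (hhh h y) (Uy y c) := by
  intro ω hω
  by_cases hn : Nice R u (hat X W R ω ∪ W) X.c0
  · have e1 : hhh h y ω =
        (((h (hat X W R ω) (hat_sub ω)).1 hn).choose_spec.2.2.1 y hy).choose := by
      unfold hhh; rw [dif_pos ⟨hn, hy⟩]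
    rw [e1, ← ((((h (hat X W R ω) (hat_sub ω)).1 hn).choose_spec.2.2.1 y hy).choose_spec.2 c hc),
      CE_hat hω, ← cc_CE X.E (fun _ => ar X W R ω)]
    unfold cc
    refine ec_congr fun ω' hω' => ?_
    change at' X y (mix (ar X W R ω) ω ω') c * (mkk h (mix (ar X W R ω) ω ω') : ℂ) = _
    rw [mkk_mix h hω hn hω', mul_comm]
    rfl
  · have e1 : hhh h y ω = 0 := by
      unfold hhh; rw [dif_neg fun h => hn h.1]
    rw [e1, zero_mul]
    unfold cc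
    have e2 : ∀ ω' ⊆ X.E, at' X y (mix (ar X W R ω) ω ω') c *
        (mkk h (mix (ar X W R ω) ω ω') : ℂ) = 0 := by
      intro ω' hω'
      have he := (same_mix (X := X) (W := W) (R := R) ω ω').hat hω (mix_sub hω hω')
      unfold mkk
      rw [dif_neg (by rw [he]; exact hn), Complex.ofReal_zero, mul_zero]
    rw [ec_congr e2]
    unfold ec
    exact Ec_const _ _ _

lemma ec_ofReal (E : Finset (ℤ × ℤ)) (F : Finset (ℤ × ℤ) → ℝ) :
    ec E (fun ω => (F ω : ℂ)) = (er E F : ℂ) := by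
  unfold ec er
  apply Complex.ext
  · rw [Ec_re]; simp
  · rw [Ec_im]; simp

/-- the contraction factor -/
theorem mkk_con (h : Sc Uy Uh C1 t R u X W) {θ : ℝ} (hθ : 0 ≤ θ)
    (hU : θ * (4 * (C1 * (R : ℝ) ^ (-(1 / 4 : ℝ)))) ≤ Uh) {ω : Finset (ℤ × ℤ)} (hω : ω ⊆ X.E)
    (hn : Nice R u (ω ∪ W) X.c0) :
    θ * cr X.E (ar X W R) (AA X) ω ≤ cr X.E (ar X W R) (fun ω => AA X ω * mkk h ω) ω := by
  have hn' : Nice R u (hat X W R ω ∪ W) X.c0 := ((same_hat ω).nice hω (hat_sub ω)).2 hn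
  have e1 : ((cr X.E (ar X W R) (fun ω => AA X ω * mkk h ω) ω : ℝ) : ℂ) = Uh := by
    rw [← ((h (hat X W R ω) (hat_sub ω)).1 hn').choose_spec.2.2.2]
    unfold cr
    rw [← ec_ofReal]
    simp only [CE_hat hω]
    have e2 : ∀ c ∈ ({(0, 0), (1, 0), (0, 1), (1, 1)} : Finset (ℤ × ℤ)),
        CE X.E (ar X W R ω) ω
          (fun w => ((((h (hat X W R ω) (hat_sub ω)).1 hn').choose w : ℝ) : ℂ) * Fc X 1 c w) =
        ec X.E (fun ω' => (((h (hat X W R ω) (hat_sub ω)).1 hn').choose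
          (mix (ar X W R ω) ω ω') : ℂ) * at' X 1 (mix (ar X W R ω) ω ω') c) := by
      intro c _
      rw [← cc_CE X.E (fun _ => ar X W R ω)]
      rfl
    rw [sum_congr rfl e2, ← ec_sum]
    refine ec_congr fun ω' hω' => ?_
    rw [mkk_mix h hω hn' hω']
    unfold AA
    rw [sum_mul]
    push_cast
    refine sum_congr rfl fun c _ => ?_
    rw [at_one (mix_sub hω hω'), mul_comm]
  have e3 : cr X.E (ar X W R) (fun ω => AA X ω * mkk h ω) ω = Uh := by exact_mod_cast e1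
  rw [e3]
  refine le_trans (mul_le_mul_of_nonneg_left ?_ hθ) hU
  have e4 : cr X.E (ar X W R) (AA X) ω =
      ∑ c ∈ ({(0, 0), (1, 0), (0, 1), (1, 1)} : Finset (ℤ × ℤ)),
        cr X.E (ar X W R) (fun ω => ind (Vis X c ω)) ω := by
    unfold cr er AA
    rw [Ex_sum]
  rw [e4]
  have e5 : ∀ c ∈ ({(0, 0), (1, 0), (0, 1), (1, 1)} : Finset (ℤ × ℤ)),
      cr X.E (ar X W R) (fun ω => ind (Vis X c ω)) ω ≤ C1 * (R : ℝ) ^ (-(1 / 4 : ℝ)) := by
    intro c hc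
    refine le_trans ?_ ((h ω hω).2 c (mem_C4.1 hc))
    have e6 : CE X.E (ar X W R ω) ω (fun w => Fc X 1 c w) =
        ((cr X.E (ar X W R) (fun ω => ind (Vis X c ω)) ω : ℝ) : ℂ) := by
      unfold cr
      rw [← ec_ofReal, ← cc_CE X.E (fun _ => ar X W R ω)]
      unfold cc
      refine ec_congr fun ω' hω' => ?_
      exact at_one (mix_sub hω hω') c
    rw [e6, Complex.norm_real]
    exact le_abs_self _
  refine (sum_le_sum e5).trans ?_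
  rw [sum_const, nsmul_eq_mul]
  have : ({(0, 0), (1, 0), (0, 1), (1, 1)} : Finset (ℤ × ℤ)).card = 4 := by decide
  rw [this]
  norm_num

end Pool.Agent.H39.ZF
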