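import Mathlib
import Pool.Agent.H39.ZF.Lev

set_option autoImplicit false
open Finset

/-! # All levels: `Mk` and `Bd` from the one-scale theorem and T9 -/

namespace Pool.Agent.H39.ZF

open Pool.Agent.H75.Perc Pool.Agent.H75.TwoArm Pool.Agent.Q1 Pool.Agent.H53.ZF Pool.Agent.ZF
open Pool.Agent.H99.NC Pool.Agent.Q1.M6c

/-- levels: `R 0 > R 1 > ... > R n`, units `u`, the one-scale statement with the factors `Uy`, `Uh` -/
structure Lv (X : Env) (W : Finset (ℤ × ℤ)) (n : ℕ) (R u : ℕ → ℤ) (Uy : ℕ → ℂ → ℤ × ℤ → ℂ)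
    (Uh : ℕ → ℝ) (C1 θ : ℝ) (Mh : ℕ) : Prop where
  ge : GE X W
  bb : BB (2 * R 0) ⊆ X.E
  rt : 2 * R 0 < |(vx X.c0).1| ∨ 2 * R 0 < |(vx X.c0).2|
  r1 : ∀ s ≤ n, 1 ≤ R s
  r4 : ∀ s < n, 4 * R (s + 1) ≤ R s
  u1 : ∀ s ≤ n, 1 ≤ u s
  u2 : ∀ s ≤ n, Mh * u s ≤ R s
  sc : ∀ s < n, Sc (Uy s) (Uh s) C1 (R (s + 1)) (R s) (u s) X W
  th0 : 0 ≤ θ
  th : ∀ s < n, θ * (4 * (C1 * (R s : ℝ) ^ (-(1 / 4 : ℝ)))) ≤ Uh s

variable {X : Env} {W : Finset (ℤ × ℤ)} {n : ℕ} {R u : ℕ → ℤ} {Uy : ℕ → ℂ → ℤ × ℤ → ℂ}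
  {Uh : ℕ → ℝ} {C1 θ : ℝ} {Mh : ℕ}

namespace Lv

lemma le (h : Lv X W n R u Uy Uh C1 θ Mh) {s t : ℕ} (hst : s ≤ t) (ht : t ≤ n) : R t ≤ R s := by
  induction t, hst using Nat.le_induction with
  | base => exact le_rfl
  | succ t hst ih =>
    have h1 := h.r4 t (by omega)
    have h2 := h.r1 (t + 1) ht
    have h3 := ih (by omega)
    omega

lemma two (h : Lv X W n R u Uy Uh C1 θ Mh) {s t : ℕ} (hst : s < t) (ht : t ≤ n) :
    2 * R t ≤ R s := by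
  have h1 := h.r4 s (by omega)
  have h2 := h.le (s := s + 1) (t := t) hst ht
  have h3 := h.r1 (s + 1) (by omega)
  omega

lemma rel (h : Lv X W n R u Uy Uh C1 θ Mh) {s t : ℕ} (hst : s ≤ t) (ht : t ≤ n) :
    R t = R s ∨ (2 * R t ≤ R s ∧ R t ≤ R s) := by
  rcases hst.eq_or_lt with h1 | h1
  · exact Or.inl (by rw [h1])
  · exact Or.inr ⟨h.two h1 ht, h.le hst ht⟩

lemma bbs (h : Lv X W n R u Uy Uh C1 θ Mh) {s : ℕ} (hs : s ≤ n) : BB (2 * R s) ⊆ X.E :=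
  (BB_mono (by have := h.le (Nat.zero_le s) hs; omega)).trans h.bb

lemma rts (h : Lv X W n R u Uy Uh C1 θ Mh) {s : ℕ} (hs : s ≤ n) :
    2 * R s < |(vx X.c0).1| ∨ 2 * R s < |(vx X.c0).2| := by
  have h1 := h.le (Nat.zero_le s) hs
  rcases h.rt with h2 | h2
  · left; omega
  · right; omega

end Lv

open Classical in
/-- the marks -/
noncomputable def mu (h : Lv X W n R u Uy Uh C1 θ Mh) (s : ℕ) (ω : Finset (ℤ × ℤ)) : ℝ :=
  if hs : s < n then mkk (h.sc s hs) ω else 0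

open Classical in
/-- the outer factors -/
noncomputable def hh (h : Lv X W n R u Uy Uh C1 θ Mh) (y : ℂ) (s : ℕ) (ω : Finset (ℤ × ℤ)) : ℂ :=
  if hs : s < n then hhh (h.sc s hs) y ω else 0

lemma mu_pos (h : Lv X W n R u Uy Uh C1 θ Mh) {s : ℕ} (hs : s < n) : mu h s = mkk (h.sc s hs) := by
  funext ω; unfold mu; rw [dif_pos hs]

lemma hh_pos (h : Lv X W n R u Uy Uh C1 θ Mh) (y : ℂ) {s : ℕ} (hs : s < n) :
    hh h y s = hhh (h.sc s hs) y := by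
  funext ω; unfold hh; rw [dif_pos hs]

/-- nice levels -/
def nc (X : Env) (W : Finset (ℤ × ℤ)) (R u : ℕ → ℤ) (s : ℕ) (ω : Finset (ℤ × ℤ)) : Prop :=
  Nice (R s) (u s) (ω ∪ W) X.c0

theorem mk_of (h : Lv X W n R u Uy Uh C1 θ Mh) :
    Mk X.E n (fun s => ar X W (R s)) (mu h) (nc X W R u) (AA X) θ where
  st := fun t _ => st_AR
  mr := by
    intro s t hst ht ω ω' hω hω'
    rw [mu_pos h (by omega)]
    have hs := same_mix' (X := X) (W := W) (R := R s) (h.rel hst.le ht.le) ω ω'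
    refine mkk_congr _ (hs.hat hω (mix_sub hω hω')) ?_
    ext e
    rw [mem_sdiff, mem_sdiff, mem_mix]
    have hle : R t ≤ R (s + 1) := h.le hst ht.le
    have hin : ∀ e : ℤ × ℤ, e ∈ X.E → e ∉ BB (2 * R (s + 1)) → e ∈ ar X W (R t) ω := by
      intro e he hb
      exact mem_union_left _ (mem_sdiff.2 ⟨he, fun h1 => hb (BB_mono (by omega) h1)⟩)
    constructor
    · rintro ⟨h1 | h1, h2⟩
      · exact ⟨h1.1, h2⟩
      · exact absurd (hin e (hω' h1.1) h2) h1.2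
    · rintro ⟨h1, h2⟩
      exact ⟨Or.inl ⟨h1, hin e (hω h1) h2⟩, h2⟩
  nr := by
    intro s t hst ht ω ω' hω hω'
    have hs := same_mix' (X := X) (W := W) (R := R s) (h.rel hst ht.le) ω ω'
    exact propext (hs.nice hω (mix_sub hω hω'))
  m0 := by
    intro t ht ω _
    rw [mu_pos h ht]
    exact mkk_bd _ ω
  a0 := fun ω _ => AA_nonneg X ω
  con := by
    intro t ht ω hω hn
    rw [mu_pos h ht]
    exact mkk_con (h.sc t ht) h.th0 (h.th t ht) hω hn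

theorem pf_of (h : Lv X W n R u Uy Uh C1 θ Mh) {y : ℂ} (hy : ‖y‖ = 1) {c : ℤ × ℤ} (hc : C0 c)
    (t : ℕ) (ht : t < n) :
    PF X.E (ar X W (R t)) (fun ω => at' X y ω c) (mu h t) (hh h y t) (Uy t y c) := by
  rw [mu_pos h ht, hh_pos h y ht]
  exact mkk_PF (h.sc t ht) hy hc

/-! ### Bad events -/

lemma cr_ind (E : Finset (ℤ × ℤ)) (U : Finset (ℤ × ℤ) → Finset (ℤ × ℤ))
    (P : Finset (ℤ × ℤ) → Prop) (ω : Finset (ℤ × ℤ)) :
    cr E U (fun ω => ind (P ω)) ω = Pr E (fun ω' => P (mix (U ω) ω ω')) := by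
  rw [← PrP_half]; rfl

lemma alive_mono {r r' : ℤ} (h : r' ≤ r) {w : Finset (ℤ × ℤ)} {c0 : ℤ × ℤ}
    (ha : Alive r' w c0) : Alive r w c0 := by
  classical
  obtain ⟨a, n, hn, hl, -⟩ := ha
  have hex : ∃ i, lab ((nx w)^[i] c0) ∈ BB r := ⟨n, by rw [hn]; exact BB_mono h hl⟩
  exact ⟨_, Nat.find hex, rfl, Nat.find_spec hex, fun i hi => Nat.find_min hex hi⟩

lemma alive_of {r : ℤ} {w : Finset (ℤ × ℤ)} {c0 : ℤ × ℤ} {i : ℕ}
    (hl : lab ((nx w)^[i] c0) ∈ BB r) : Alive r w c0 := by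
  classical
  have hex : ∃ i, lab ((nx w)^[i] c0) ∈ BB r := ⟨i, hl⟩
  exact ⟨_, Nat.find hex, rfl, Nat.find_spec hex, fun i hi => Nat.find_min hex hi⟩

theorem bd_of (h : Lv X W n R u Uy Uh C1 θ Mh) {κ0 : ℝ}
    (h9 : ∀ (t u : ℤ), 1 ≤ u → Mh * u ≤ t →
      ∀ (E W : Finset (ℤ × ℤ)) (c0 : ℤ × ℤ), Disjoint E W → (∀ e ∈ E, (e.1 + e.2) % 2 = 1) →
      ∀ (R : ℤ), 4 * t ≤ R → BB (2 * R) ⊆ E → (2 * R < |(vx c0).1| ∨ 2 * R < |(vx c0).2|) →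
      ∀ ω ⊆ E,
      Pr E (fun ω' => Alive t (mix (H53.ZF.AR E W c0 R ω) ω ω' ∪ W) c0 ∧
        Near t u (mix (H53.ZF.AR E W c0 R ω) ω ω' ∪ W) c0) ≤ κ0⁻¹ ∧
      ∀ u' : ℤ, 1 ≤ u' → Mh * u' ≤ R → Close R u' (ω ∪ W) c0 →
        Pr E (fun ω' => Alive t (mix (H53.ZF.AR E W c0 R ω) ω ω' ∪ W) c0) ≤ κ0⁻¹) :
    Bd X.E n (fun s => ar X W (R s)) (fun s ω => Alive (R s) (ω ∪ W) X.c0)
      (fun s ω => Near (R s) (u s) (ω ∪ W) X.c0) (fun s ω => Close (R s) (u s) (ω ∪ W) X.c0)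
      κ0⁻¹ where
  st := fun t _ => st_AR
  ar := by
    intro t ht ω ω' hω hω'
    exact propext ((same_mix (X := X) (W := W) (R := R t) ω ω').alive hω (mix_sub hω hω'))
  r1 := by
    intro s t hst ht ω ω' hω hω'
    have hs := same_mix' (X := X) (W := W) (R := R s) (h.rel hst ht.le) ω ω'
    exact propext (hs.near hω (mix_sub hω hω'))
  r2 := by
    intro s t hst ht ω ω' hω hω'
    have hs := same_mix' (X := X) (W := W) (R := R s) (h.rel hst ht.le) ω ω'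
    exact propext (hs.close hω (mix_sub hω hω'))
  dec := fun t ht ω _ ha => alive_mono (h.le (Nat.le_succ t) ht) ha
  near := by
    intro t ht ω hω
    rw [cr_ind X.E _ (fun ω => Alive (R (t + 1)) (ω ∪ W) X.c0 ∧
      Near (R (t + 1)) (u (t + 1)) (ω ∪ W) X.c0)]
    exact (h9 (R (t + 1)) (u (t + 1)) (h.u1 _ ht) (h.u2 _ ht) X.E W X.c0 h.ge.disj X.odd (R t)
      (h.r4 t ht) (h.bbs ht.le) (h.rts ht.le) ω hω).1
  close := by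
    intro t ht ω hω hb
    rw [cr_ind X.E _ (fun ω => Alive (R (t + 1)) (ω ∪ W) X.c0)]
    exact (h9 (R (t + 1)) (u (t + 1)) (h.u1 _ ht) (h.u2 _ ht) X.E W X.c0 h.ge.disj X.odd (R t)
      (h.r4 t ht) (h.bbs ht.le) (h.rts ht.le) ω hω).2 (u t) (h.u1 _ ht.le) (h.u2 _ ht.le) hb

lemma AA_alive (h : GE X W) {r : ℤ} (hr : 1 ≤ r) {ω : Finset (ℤ × ℤ)} (hω : ω ⊆ X.E) :
    AA X ω ≤ 4 * ind (Alive r (ω ∪ W) X.c0) := by
  refine AA_le X ω fun c hc hv => ?_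
  obtain ⟨i, -, hi⟩ := hv
  rw [h.zz ω hω] at hi
  refine alive_of (i := i) ?_
  rw [hi]
  unfold H75.TwoArm.BB
  rw [mem_Bx]
  rcases hc with rfl | rfl | rfl | rfl <;> unfold lab <;> simp <;> omega

open Classical in
/-- few bad levels of one copy -/
theorem tail_of (h : Lv X W n R u Uy Uh C1 θ Mh) {κ : ℝ} (hκ : 1 ≤ κ)
    (h9 : ∀ (t u : ℤ), 1 ≤ u → Mh * u ≤ t →
      ∀ (E W : Finset (ℤ × ℤ)) (c0 : ℤ × ℤ), Disjoint E W → (∀ e ∈ E, (e.1 + e.2) % 2 = 1) →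
      ∀ (R : ℤ), 4 * t ≤ R → BB (2 * R) ⊆ E → (2 * R < |(vx c0).1| ∨ 2 * R < |(vx c0).2|) →
      ∀ ω ⊆ E,
      Pr E (fun ω' => Alive t (mix (H53.ZF.AR E W c0 R ω) ω ω' ∪ W) c0 ∧
        Near t u (mix (H53.ZF.AR E W c0 R ω) ω ω' ∪ W) c0) ≤ (κ ^ 2)⁻¹ ∧
      ∀ u' : ℤ, 1 ≤ u' → Mh * u' ≤ R → Close R u' (ω ∪ W) c0 →
        Pr E (fun ω' => Alive t (mix (H53.ZF.AR E W c0 R ω) ω ω' ∪ W) c0) ≤ (κ ^ 2)⁻¹) (k : ℕ) :
    er X.E (fun ω => (if k ≤ ((range n).filter fun s => ¬ nc X W R u s ω).card then 1 else 0) *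
      AA X ω) ≤ 4 * (κ⁻¹ ^ k * (2 ^ n * κ)) := by
  have hκ0 : 0 < κ := by linarith
  refine tail (bd_of h h9) hκ (le_of_eq (mul_inv_cancel₀ (by positivity))) ?_ (by norm_num)
    (fun ω hω => AA_alive h.ge (h.r1 n le_rfl) hω) k
  intro s hs ω _ ha h1 h2
  exact ⟨alive_mono (h.le hs.le le_rfl) ha, h1, h2⟩

end Pool.Agent.H39.ZF
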