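import Mathlib
import Pool.Agent.H39.ZF.Lev2
import Pool.Agent.H95.ZF.Low

set_option autoImplicit false
open Finset

/-! # The one-scale theorem implies the mixing: `OS → T9 → MX PlaneK` -/

namespace Pool.Agent.H39.ZF

open Pool.Agent.H75.Perc Pool.Agent.H75.TwoArm Pool.Agent.Q1 Pool.Agent.H53.ZF Pool.Agent.ZF
open Pool.Agent.H99.NC Pool.Agent.Q1.M6c Pool.Agent.H47.NC

/-! ### Probabilities of the passages -/

/-- probability of a passage -/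
noncomputable def hP (X : Env) (c : ℤ × ℤ) : ℝ := er X.E (fun ω => ind (Vis X c ω))

lemma gn_one (X : Env) (c : ℤ × ℤ) : gn X 1 c = (hP X c : ℂ) := by
  rw [gn_ec]
  unfold hP
  rw [← ec_ofReal]
  exact ec_congr fun ω hω => at_one hω c

lemma hP_tr (X : Env) (g : CSym) (c : ℤ × ℤ) : hP (X.tr g) (g.s c) = hP X c := by
  have h1 := gn_tr X g one_ne_zero c
  rw [one_zpow, one_mul, gn_one, gn_one] at h1
  exact_mod_cast h1

lemma hv_eq (X : Env) (v : ℤ × ℤ) : hv X v = ∑ i ∈ range 4, hP X (crn v i) := rfl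

lemma er_AA (X : Env) : er X.E (AA X) = ∑ i ∈ range 4, hP X (crn (0, 0) i) := by
  have e1 : er X.E (AA X) =
      ∑ c ∈ ({(0, 0), (1, 0), (0, 1), (1, 1)} : Finset (ℤ × ℤ)), hP X c := by
    unfold hP er AA
    rw [Ex_sum]
  rw [e1, sum_range_succ, sum_range_succ, sum_range_succ, sum_range_succ, sum_range_zero,
    H95.ZF.crn_zero, H95.ZF.crn_one, H95.ZF.crn_two, H95.ZF.crn_three]
  rw [sum_insert (by decide), sum_insert (by decide), sum_insert (by decide), sum_singleton]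
  norm_num
  ring

lemma C0_crn (i : ℕ) : C0 (crn (0, 0) i) := by
  unfold C0
  rcases H95.ZF.crn_cases (0, 0) i with h | h | h | h <;> rw [h]
  · rw [H95.ZF.crn_zero]; simp
  · rw [H95.ZF.crn_one]; simp
  · rw [H95.ZF.crn_two]; simp
  · rw [H95.ZF.crn_three]; simp

lemma sh_crn (v : ℤ × ℤ) (i : ℕ) : (shS (-v)).s (crn v i) = crn (0, 0) i := by
  induction i with
  | zero =>
    rw [H95.ZF.crn_zero, H95.ZF.crn_zero]
    show (2 * v.1 + 2 * (-v).1, 2 * v.2 + 2 * (-v).2) = _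
    rw [Prod.fst_neg, Prod.snd_neg]
    refine Prod.ext ?_ ?_ <;> simp
  | succ i ih => rw [H95.ZF.crn_succ, H95.ZF.crn_succ, ← (shS (-v)).hC, ih]

lemma rot_crn (i : ℕ) : rotS.s (crn (0, 0) i) = crn (0, 0) (i + 1) := by
  induction i with
  | zero =>
    rw [H95.ZF.crn_zero, H95.ZF.crn_one]
    show rotc _ = _
    unfold rotc
    refine Prod.ext ?_ ?_ <;> simp
  | succ i ih => rw [H95.ZF.crn_succ _ i, ← rotS.hC, ih, ← H95.ZF.crn_succ]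

/-- the centred environment -/
noncomputable def X1 (X : Env) (v : ℤ × ℤ) : Env := X.tr (shS (-v))

/-- the rotated environment -/
noncomputable def X2 (X : Env) (v : ℤ × ℤ) : Env := (X1 X v).tr rotS

lemma gn1 (X : Env) (v : ℤ × ℤ) {y : ℂ} (hy : y ≠ 0) (i : ℕ) :
    gn (X1 X v) y (crn (0, 0) i) = gn X y (crn v i) := by
  have h1 := gn_tr X (shS (-v)) hy (crn v i)
  rw [sh_crn] at h1
  rw [X1, h1]
  show y ^ (0 : ℤ) * _ = _
  rw [zpow_zero, one_mul]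

lemma gn2 (X : Env) (v : ℤ × ℤ) {y : ℂ} (hy : y ≠ 0) (i : ℕ) :
    gn (X2 X v) y (crn (0, 0) (i + 1)) = y * gn X y (crn v i) := by
  have h1 := gn_tr (X1 X v) rotS hy (crn (0, 0) i)
  rw [rot_crn] at h1
  rw [X2, h1, gn1 X v hy]
  show y ^ (1 : ℤ) * _ = _
  rw [zpow_one]

lemma hP1 (X : Env) (v : ℤ × ℤ) (i : ℕ) : hP (X1 X v) (crn (0, 0) i) = hP X (crn v i) := by
  rw [X1, ← sh_crn v i, hP_tr]

lemma hP2 (X : Env) (v : ℤ × ℤ) (i : ℕ) : hP (X2 X v) (crn (0, 0) (i + 1)) = hP X (crn v i) := by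
  rw [X2, ← rot_crn i, hP_tr, hP1]

lemma er1 (X : Env) (v : ℤ × ℤ) : er (X1 X v).E (AA (X1 X v)) = hv X v := by
  rw [er_AA, hv_eq]
  exact sum_congr rfl fun i _ => hP1 X v i

lemma er2 (X : Env) (v : ℤ × ℤ) : er (X2 X v).E (AA (X2 X v)) = hv X v := by
  rw [er_AA, hv_eq]
  have e : ∀ i : ℕ, hP (X2 X v) (H53.ZF.crn (0, 0) (i + 1)) = hP X (H53.ZF.crn v i) := hP2 X v
  simp only [sum_range_succ, sum_range_zero]
  have e0 := e 0
  have e1 := e 1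
  have e2 := e 2
  have e3 := e 3
  rw [show (3 : ℕ) + 1 = 4 from rfl, H95.ZF.crn_four] at e3
  rw [show (0 : ℕ) + 1 = 1 from rfl] at e0
  rw [show (1 : ℕ) + 1 = 2 from rfl] at e1
  rw [show (2 : ℕ) + 1 = 3 from rfl] at e2
  rw [e0, e1, e2, e3]
  ring

/-! ### Position of the environments -/

lemma vx_plab (z : ℤ × ℤ) : |2 * (vx z).1 - (plab z).1| ≤ 1 ∧ |2 * (vx z).2 - (plab z).2| ≤ 1 := by
  unfold vx plab
  rw [abs_le, abs_le]
  split_ifs <;> simp only <;> omega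

lemma plab_odd (z : ℤ × ℤ) : ((plab z).1 + (plab z).2) % 2 = 1 := by
  unfold plab
  split_ifs <;> simp only <;> omega

lemma root_far {X : Env} {r : ℤ} (h : BB (r + 1) ⊆ X.E) : r < |(vx X.c0).1| ∨ r < |(vx X.c0).2| := by
  by_contra hc
  push Not at hc
  refine Pool.Agent.ZF.plab_root X (h ?_)
  have h1 := vx_plab X.c0
  have h2 := plab_odd X.c0
  unfold H75.TwoArm.BB
  rw [mem_Bx]
  rw [abs_le, abs_le] at h1
  rw [abs_le, abs_le] at hc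
  omega

lemma BB1 {X : Env} {v : ℤ × ℤ} {N : ℤ} (h : Bq v N ⊆ X.E) : BB N ⊆ (X1 X v).E := by
  intro e he
  unfold H75.TwoArm.BB at he
  rw [mem_Bx] at he
  show e ∈ X.E.map (shS (-v)).t.toEmbedding
  rw [mem_map_equiv]
  apply h
  unfold Bq
  rw [mem_Bx]
  show (2 * (v.1 - N) ≤ e.1 - 2 * (-v).1 ∧ e.1 - 2 * (-v).1 ≤ 2 * (v.1 + N)) ∧
    (2 * (v.2 - N) ≤ e.2 - 2 * (-v).2 ∧ e.2 - 2 * (-v).2 ≤ 2 * (v.2 + N)) ∧
    (e.1 - 2 * (-v).1 + (e.2 - 2 * (-v).2)) % 2 = 1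
  rw [Prod.fst_neg, Prod.snd_neg]
  omega

lemma BB2 {X : Env} {v : ℤ × ℤ} {N : ℤ} (h : Bq v N ⊆ X.E) : BB N ⊆ (X2 X v).E := by
  intro e he
  unfold H75.TwoArm.BB at he
  rw [mem_Bx] at he
  show e ∈ (X1 X v).E.map rotS.t.toEmbedding
  rw [mem_map_equiv]
  apply BB1 h
  unfold H75.TwoArm.BB
  rw [mem_Bx]
  show (2 * (-N) ≤ e.2 ∧ e.2 ≤ 2 * N) ∧ (2 * (-N) ≤ -e.1 ∧ -e.1 ≤ 2 * N) ∧ (e.2 + -e.1) % 2 = 1
  omega

/-! ### Two copies -/

/-- T9 for fixed `κ0`, `Mh` -/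
def N9 (κ0 : ℝ) (Mh : ℕ) : Prop := ∀ (t u : ℤ), 1 ≤ u → Mh * u ≤ t →
  ∀ (E W : Finset (ℤ × ℤ)) (c0 : ℤ × ℤ), Disjoint E W → (∀ e ∈ E, (e.1 + e.2) % 2 = 1) →
  ∀ (R : ℤ), 4 * t ≤ R → BB (2 * R) ⊆ E → (2 * R < |(vx c0).1| ∨ 2 * R < |(vx c0).2|) →
  ∀ ω ⊆ E,
  Pr E (fun ω' => Alive t (mix (H53.ZF.AR E W c0 R ω) ω ω' ∪ W) c0 ∧
    Near t u (mix (H53.ZF.AR E W c0 R ω) ω ω' ∪ W) c0) ≤ κ0⁻¹ ∧
  ∀ u' : ℤ, 1 ≤ u' → Mh * u' ≤ R → Close R u' (ω ∪ W) c0 →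
    Pr E (fun ω' => Alive t (mix (H53.ZF.AR E W c0 R ω) ω ω' ∪ W) c0) ≤ κ0⁻¹

section
variable {X X' : Env} {W W' : Finset (ℤ × ℤ)} {k : ℕ} {R u : ℕ → ℤ} {Uy : ℕ → ℂ → ℤ × ℤ → ℂ}
  {Uh : ℕ → ℝ} {C1 θ r κ : ℝ} {Mh : ℕ}

open Classical in
lemma count (P Q : ℕ → Prop) (h1 : ((range (4 * k)).filter fun s => ¬ P s).card < k)
    (h2 : ((range (4 * k)).filter fun s => ¬ Q s).card < k) :
    ¬ ((range (4 * k)).filter fun s => P s ∧ Q s).card < 2 * k := by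
  intro h3
  have h4 : (range (4 * k)).card ≤ ((range (4 * k)).filter fun s => P s ∧ Q s).card +
      (((range (4 * k)).filter fun s => ¬ P s).card +
        ((range (4 * k)).filter fun s => ¬ Q s).card) := by
    refine le_trans (card_le_card (t := ((range (4 * k)).filter fun s => P s ∧ Q s) ∪
      (((range (4 * k)).filter fun s => ¬ P s) ∪ ((range (4 * k)).filter fun s => ¬ Q s))) ?_)
      ((card_union_le _ _).trans (Nat.add_le_add_left (card_union_le _ _) _))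
    intro s hs
    simp only [mem_union, mem_filter]
    tauto
  rw [card_range] at h4
  omega

theorem two_copies (h : Lv X W (4 * k) R u Uy Uh C1 θ Mh) (h' : Lv X' W' (4 * k) R u Uy Uh C1 θ Mh)
    (hκ : 1 ≤ κ) (h9 : N9 (κ ^ 2) Mh) (hr : 1 ≤ r) (hr' : r * (1 - θ ^ 2) ≤ 1) {y : ℂ} (hy : ‖y‖ = 1)
    {c d : ℤ × ℤ} (hc : C0 c) (hd : C0 d) :
    ‖gn X y c * gn X' y d - gn X y d * gn X' y c‖ ≤
      2 * (r⁻¹ ^ (2 * k) * (er X.E (AA X) * er X'.E (AA X')) +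
        4 * (κ⁻¹ ^ k * (2 ^ (4 * k) * κ)) * (er X.E (AA X) + er X'.E (AA X'))) := by
  classical
  rw [gn_ec, gn_ec, gn_ec, gn_ec]
  set T : ℝ := 4 * (κ⁻¹ ^ k * (2 ^ (4 * k) * κ)) with hT
  have t1 := tail_of h hκ h9 k
  have t2 := tail_of h' hκ h9 k
  rw [← hT] at t1 t2
  refine marks (mk_of h) (mk_of h') h.th0 hr hr' (fun ω hω => at_le_AA hy hω hc)
    (fun ω hω => at_le_AA hy hω hd) (fun ω hω => at_le_AA hy hω hc)
    (fun ω hω => at_le_AA hy hω hd) (fun t ht => pf_of h hy hc t ht)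
    (fun t ht => pf_of h hy hd t ht) (fun t ht => pf_of h' hy hc t ht)
    (fun t ht => pf_of h' hy hd t ht) (2 * k) ?_
  set B : Finset (ℤ × ℤ) → ℝ := fun ω =>
    if k ≤ ((range (4 * k)).filter fun s => ¬ nc X W R u s ω).card then 1 else 0 with hB
  set B' : Finset (ℤ × ℤ) → ℝ := fun ω =>
    if k ≤ ((range (4 * k)).filter fun s => ¬ nc X' W' R u s ω).card then 1 else 0 with hB'
  have e1 : er X.E (fun ω => er X'.E (fun η =>
      (if cnt (nc X W R u) (nc X' W' R u) (4 * k) ω η < 2 * k then 1 else 0) *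
        (AA X ω * AA X' η))) ≤
      er X.E (fun ω => er X'.E (fun η => (B ω * AA X ω) * AA X' η + AA X ω * (B' η * AA X' η))) := by
    refine er_mono fun ω _ => er_mono fun η _ => ?_
    have a1 := AA_nonneg X ω
    have a2 := AA_nonneg X' η
    have a3 := mul_nonneg a1 a2
    have b1 : 0 ≤ B ω := by simp only [hB]; split_ifs <;> norm_num
    have b2 : 0 ≤ B' η := by simp only [hB']; split_ifs <;> norm_num
    split_ifs with hcn
    · have : 1 ≤ B ω + B' η := by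
        by_cases c1 : k ≤ ((range (4 * k)).filter fun s => ¬ nc X W R u s ω).card
        · have : B ω = 1 := by simp only [hB]; rw [if_pos c1]
          linarith
        by_cases c2 : k ≤ ((range (4 * k)).filter fun s => ¬ nc X' W' R u s η).card
        · have : B' η = 1 := by simp only [hB']; rw [if_pos c2]
          linarith
        exfalso
        refine count (k := k) (fun s => nc X W R u s ω) (fun s => nc X' W' R u s η)
          (not_le.1 c1) (not_le.1 c2) ?_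
        exact hcn
      nlinarith
    · rw [zero_mul]
      have := mul_nonneg (mul_nonneg b1 a1) a2
      have := mul_nonneg a1 (mul_nonneg b2 a2)
      linarith
  refine e1.trans ?_
  have e2 : er X.E (fun ω => er X'.E (fun η => (B ω * AA X ω) * AA X' η +
      AA X ω * (B' η * AA X' η))) =
      er X.E (fun ω => B ω * AA X ω) * er X'.E (AA X') +
      er X.E (AA X) * er X'.E (fun η => B' η * AA X' η) := by
    have e3 : ∀ ω : Finset (ℤ × ℤ), er X'.E (fun η => (B ω * AA X ω) * AA X' η +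
        AA X ω * (B' η * AA X' η)) = er X'.E (AA X') * (B ω * AA X ω) +
        er X'.E (fun η => B' η * AA X' η) * AA X ω := by
      intro ω
      rw [er_add, er_smul, er_smul]
      ring
    simp only [e3]
    rw [er_add, er_smul, er_smul]
    ring
  rw [e2]
  have n1 : 0 ≤ er X.E (AA X) := er_nonneg fun ω _ => AA_nonneg X ω
  have n2 : 0 ≤ er X'.E (AA X') := er_nonneg fun ω _ => AA_nonneg X' ω
  have := mul_le_mul_of_nonneg_right t1 n2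
  have := mul_le_mul_of_nonneg_left t2 n1
  nlinarith

end

/-! ### The levels -/

/-- one-scale statement, all environments -/
def OSc (M : ℕ) (C1 θ : ℝ) (Mh : ℕ) : Prop := ∀ (t R u : ℤ), 1 ≤ t → R = M * t → 1 ≤ u →
  Mh * u ≤ R → R ≤ 2 * Mh * u →
  ∃ Uy : ℂ → ℤ × ℤ → ℂ, ∃ Uh : ℝ, θ * (R : ℝ) ^ (-(1 / 4 : ℝ)) ≤ Uh ∧
  ∀ (X : Env) (W : Finset (ℤ × ℤ)), GE X W → BB (2 * R) ⊆ X.E →
  (2 * R < |(vx X.c0).1| ∨ 2 * R < |(vx X.c0).2|) → Sc Uy Uh C1 t R u X W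

lemma OSc_of (hOS : OS) : ∃ (M : ℕ) (C1 : ℝ), 8 ≤ M ∧ 0 < C1 ∧ ∀ Mh : ℕ, 1000 ≤ Mh →
    ∃ θ : ℝ, 0 < θ ∧ OSc M C1 θ Mh := by
  obtain ⟨M, C1, hM, hC1, h⟩ := hOS
  refine ⟨M, C1, hM, hC1, fun Mh hMh => ?_⟩
  obtain ⟨θ, hθ, h1⟩ := h Mh hMh
  refine ⟨θ, hθ, fun t R u ht hR hu h2 h3 => ?_⟩
  obtain ⟨Uy, Uh, h4, -, h5⟩ := h1 t R u ht hR hu h2 h3
  exact ⟨Uy, Uh, h4, fun X W hX hb hr ω hω => h5 X W hX hb hr ω hω⟩

/-- the boxes -/
def Rs (M k : ℕ) (s : ℕ) : ℤ := (M : ℤ) ^ (8 * k - s)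

/-- the units -/
def us (M k Mh : ℕ) (s : ℕ) : ℤ := Rs M k s / Mh

lemma Rs_pos {M k : ℕ} (hM : 8 ≤ M) (s : ℕ) : 1 ≤ Rs M k s :=
  one_le_pow₀ (by omega)

lemma Rs_succ {M k s : ℕ} (hs : s < 4 * k) : Rs M k s = M * Rs M k (s + 1) := by
  unfold Rs
  rw [show 8 * k - s = (8 * k - (s + 1)) + 1 by omega, pow_succ, mul_comm]

lemma Rs_ge {M k Mh s : ℕ} (hM : 8 ≤ M) (hk : Mh ≤ k) (hs : s ≤ 4 * k) : (Mh : ℤ) ≤ Rs M k s := by
  unfold Rs
  have h1 : Mh ≤ 8 * k - s := by omega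
  have h2 : 8 * k - s < M ^ (8 * k - s) := Nat.lt_pow_self (by omega)
  have h3 : Mh ≤ M ^ (8 * k - s) := by omega
  exact_mod_cast h3

lemma us1 {M k Mh s : ℕ} (hM : 8 ≤ M) (hMh : 1 ≤ Mh) (hk : Mh ≤ k) (hs : s ≤ 4 * k) :
    1 ≤ us M k Mh s := by
  unfold us
  rw [Int.le_ediv_iff_mul_le (by omega)]
  have := Rs_ge (s := s) hM hk hs
  omega

lemma us2 {M k Mh s : ℕ} (hMh : 1 ≤ Mh) : Mh * us M k Mh s ≤ Rs M k s :=
  Int.mul_ediv_self_le (by omega)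

lemma us3 {M k Mh s : ℕ} (hM : 8 ≤ M) (hMh : 1 ≤ Mh) (hk : Mh ≤ k) (hs : s ≤ 4 * k) :
    Rs M k s ≤ 2 * Mh * us M k Mh s := by
  have h1 := us1 (s := s) hM hMh hk hs
  have h2 : Rs M k s < Mh * us M k Mh s + Mh := by
    unfold us
    exact Int.lt_mul_ediv_self_add (by omega)
  nlinarith

theorem exists_lv {M Mh : ℕ} {C1 θ : ℝ} (hM : 8 ≤ M) (hMh : 1 ≤ Mh)
    (h : OSc M C1 θ Mh) {k : ℕ} (hk : Mh ≤ k) {θ' : ℝ} (h0 : 0 ≤ θ') (hθ' : θ' * (4 * C1) ≤ θ) :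
    ∃ (Uy : ℕ → ℂ → ℤ × ℤ → ℂ) (Uh : ℕ → ℝ), ∀ (X : Env) (W : Finset (ℤ × ℤ)), GE X W →
      BB (2 * Rs M k 0 + 1) ⊆ X.E →
      Lv X W (4 * k) (Rs M k) (us M k Mh) Uy Uh C1 θ' Mh := by
  have key : ∀ s : ℕ, ∃ Uy : ℂ → ℤ × ℤ → ℂ, ∃ Uh : ℝ, s < 4 * k →
      θ * (Rs M k s : ℝ) ^ (-(1 / 4 : ℝ)) ≤ Uh ∧
      ∀ (X : Env) (W : Finset (ℤ × ℤ)), GE X W → BB (2 * Rs M k s) ⊆ X.E →
      (2 * Rs M k s < |(vx X.c0).1| ∨ 2 * Rs M k s < |(vx X.c0).2|) →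
      Sc Uy Uh C1 (Rs M k (s + 1)) (Rs M k s) (us M k Mh s) X W := by
    intro s
    by_cases hs : s < 4 * k
    · obtain ⟨Uy, Uh, h1⟩ := h (Rs M k (s + 1)) (Rs M k s) (us M k Mh s) (Rs_pos hM _)
        (Rs_succ hs) (us1 hM hMh hk hs.le) (us2 hMh) (us3 hM hMh hk hs.le)
      exact ⟨Uy, Uh, fun _ => h1⟩
    · exact ⟨fun _ _ => 0, 0, fun h => absurd h hs⟩
  choose Uy Uh hU using key
  refine ⟨Uy, Uh, fun X W hX hb => ?_⟩
  have hle : ∀ s, s ≤ 4 * k → Rs M k s ≤ Rs M k 0 := by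
    intro s _
    unfold Rs
    exact pow_le_pow_right₀ (by omega) (by omega)
  have hrt := root_far hb
  exact {
    ge := hX
    bb := (BB_mono (by omega)).trans hb
    rt := hrt
    r1 := fun s _ => Rs_pos hM s
    r4 := fun s hs => by
      have h1 := Rs_succ (M := M) hs
      have h2 := Rs_pos (k := k) hM (s + 1)
      have h3 : (8 : ℤ) ≤ M := by exact_mod_cast hM
      nlinarith
    u1 := fun s hs => us1 hM hMh hk hs
    u2 := fun s _ => us2 hMh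
    sc := fun s hs => (hU s hs).2 X W hX
      ((BB_mono (by have := hle s hs.le; omega)).trans hb) (by
        have := hle s hs.le
        rcases hrt with h1 | h1
        · left; omega
        · right; omega)
    th0 := h0
    th := fun s hs => by
      refine le_trans ?_ (hU s hs).1
      have h1 : 0 ≤ (Rs M k s : ℝ) ^ (-(1 / 4 : ℝ)) :=
        Real.rpow_nonneg (by have := Rs_pos (k := k) hM s; exact_mod_cast (by omega : (0 : ℤ) ≤ Rs M k s)) _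
      calc θ' * (4 * (C1 * (Rs M k s : ℝ) ^ (-(1 / 4 : ℝ)))) =
          (θ' * (4 * C1)) * (Rs M k s : ℝ) ^ (-(1 / 4 : ℝ)) := by ring
        _ ≤ _ := mul_le_mul_of_nonneg_right hθ' h1 }

/-! ### Numbers -/

/-- the numbers: `B = M ^ 8`, `κ = 16 B ^ (A + 1)` -/
lemma num {B r κ : ℝ} {A k : ℕ} (hB : 4 ≤ B) (hr : 1 ≤ r) (hr2 : r ≤ 2)
    (hκ : κ = 16 * B ^ (A + 1)) {N η : ℝ} (hN1 : 1 ≤ N) (hN : N ≤ B ^ (k + 2)) (hη : 0 ≤ η)
    (hη' : B ^ η = r) (hk : (2 + 16 * κ * B ^ (2 * A)) * r ^ 2 ≤ r ^ k) {h : ℝ} (h0 : 0 ≤ h)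
    (hh : N⁻¹ ^ A ≤ h) :
    2 * (r⁻¹ ^ (2 * k) * (h * h) + 4 * (κ⁻¹ ^ k * (2 ^ (4 * k) * κ)) * (h + h)) ≤
      N ^ (-η) * h ^ 2 := by
  have hB0 : 0 < B := by linarith
  have hr0 : 0 < r := by linarith
  have hκ0 : 0 < κ := by rw [hκ]; positivity
  have hN0 : 0 < N := by linarith
  -- the tail
  have e1 : κ⁻¹ ^ k * 2 ^ (4 * k) = (B⁻¹ ^ (A + 1)) ^ k := by
    rw [pow_mul, ← mul_pow, hκ]
    congr 1
    rw [mul_inv, inv_pow]
    norm_num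
    field_simp
  have e2 : h ≤ B ^ ((k + 2) * A) * (h * h) := by
    have f1 : 1 ≤ N ^ A * h := by
      have : N ^ A * N⁻¹ ^ A ≤ N ^ A * h := mul_le_mul_of_nonneg_left hh (by positivity)
      rwa [← mul_pow, mul_inv_cancel₀ hN0.ne', one_pow] at this
    have f2 : N ^ A ≤ B ^ ((k + 2) * A) := by
      rw [pow_mul]
      exact pow_le_pow_left₀ hN0.le hN A
    have f3 : 1 ≤ B ^ ((k + 2) * A) * h := f1.trans (mul_le_mul_of_nonneg_right f2 h0)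
    nlinarith
  have e3 : (B⁻¹ ^ (A + 1)) ^ k * B ^ ((k + 2) * A) = B⁻¹ ^ k * B ^ (2 * A) := by
    rw [← pow_mul, show (A + 1) * k = k + k * A by ring, show (k + 2) * A = k * A + 2 * A by ring,
      pow_add, pow_add]
    have : B⁻¹ ^ (k * A) * B ^ (k * A) = 1 := by
      rw [← mul_pow, inv_mul_cancel₀ hB0.ne', one_pow]
    calc B⁻¹ ^ k * B⁻¹ ^ (k * A) * (B ^ (k * A) * B ^ (2 * A)) =
        B⁻¹ ^ k * (B⁻¹ ^ (k * A) * B ^ (k * A)) * B ^ (2 * A) := by ring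
      _ = _ := by rw [this]; ring
  have e4 : B⁻¹ ^ k ≤ r⁻¹ ^ (2 * k) := by
    rw [pow_mul]
    refine pow_le_pow_left₀ (by positivity) ?_ k
    rw [inv_pow]
    apply inv_anti₀ (by positivity)
    nlinarith
  have e5 : κ⁻¹ ^ k * (2 ^ (4 * k) * κ) * h ≤ κ * B ^ (2 * A) * r⁻¹ ^ (2 * k) * (h * h) := by
    calc κ⁻¹ ^ k * (2 ^ (4 * k) * κ) * h = κ * (κ⁻¹ ^ k * 2 ^ (4 * k)) * h := by ring
      _ = κ * (B⁻¹ ^ (A + 1)) ^ k * h := by rw [e1]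
      _ ≤ κ * (B⁻¹ ^ (A + 1)) ^ k * (B ^ ((k + 2) * A) * (h * h)) :=
        mul_le_mul_of_nonneg_left e2 (by positivity)
      _ = κ * ((B⁻¹ ^ (A + 1)) ^ k * B ^ ((k + 2) * A)) * (h * h) := by ring
      _ = κ * (B⁻¹ ^ k * B ^ (2 * A)) * (h * h) := by rw [e3]
      _ ≤ κ * (r⁻¹ ^ (2 * k) * B ^ (2 * A)) * (h * h) := by gcongr
      _ = _ := by ring
  -- the final power
  have e6 : (r⁻¹) ^ (k + 2) ≤ N ^ (-η) := by
    have f1 : N ^ η ≤ (B ^ (k + 2)) ^ η := Real.rpow_le_rpow hN0.le hN hη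
    have f2 : (B ^ (k + 2)) ^ η = r ^ (k + 2) := by
      rw [← Real.rpow_natCast, ← Real.rpow_mul hB0.le, mul_comm, Real.rpow_mul hB0.le, hη',
        Real.rpow_natCast]
    rw [Real.rpow_neg hN0.le, inv_pow]
    apply inv_anti₀ (Real.rpow_pos_of_pos hN0 _)
    rw [← f2]; exact f1
  have e7 : (2 + 16 * κ * B ^ (2 * A)) * r⁻¹ ^ (2 * k) ≤ r⁻¹ ^ (k + 2) := by
    have f1 : r⁻¹ ^ (2 * k) = r⁻¹ ^ (k + 2) * (r ^ 2 * r⁻¹ ^ k) := by
      rw [show 2 * k = k + k by ring, pow_add, pow_add]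
      have : r⁻¹ ^ 2 * r ^ 2 = 1 := by rw [← mul_pow, inv_mul_cancel₀ hr0.ne', one_pow]
      calc r⁻¹ ^ k * r⁻¹ ^ k = r⁻¹ ^ k * (r⁻¹ ^ 2 * r ^ 2) * r⁻¹ ^ k := by rw [this, mul_one]
        _ = _ := by ring
    rw [f1]
    have f2 : (2 + 16 * κ * B ^ (2 * A)) * r ^ 2 * r⁻¹ ^ k ≤ 1 := by
      calc _ ≤ r ^ k * r⁻¹ ^ k := mul_le_mul_of_nonneg_right hk (by positivity)
        _ = 1 := by rw [← mul_pow, mul_inv_cancel₀ hr0.ne', one_pow]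
    have f3 : 0 < r⁻¹ ^ (k + 2) := by positivity
    nlinarith
  have hhh : 0 ≤ h * h := mul_nonneg h0 h0
  calc 2 * (r⁻¹ ^ (2 * k) * (h * h) + 4 * (κ⁻¹ ^ k * (2 ^ (4 * k) * κ)) * (h + h)) =
      2 * (r⁻¹ ^ (2 * k) * (h * h)) + 16 * (κ⁻¹ ^ k * (2 ^ (4 * k) * κ) * h) := by ring
    _ ≤ 2 * (r⁻¹ ^ (2 * k) * (h * h)) +
        16 * (κ * B ^ (2 * A) * r⁻¹ ^ (2 * k) * (h * h)) := by linarith
    _ = ((2 + 16 * κ * B ^ (2 * A)) * r⁻¹ ^ (2 * k)) * (h * h) := by ring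
    _ ≤ r⁻¹ ^ (k + 2) * (h * h) := mul_le_mul_of_nonneg_right e7 hhh
    _ ≤ N ^ (-η) * (h * h) := mul_le_mul_of_nonneg_right e6 hhh
    _ = _ := by ring

lemma hv_nn (X : Env) (v : ℤ × ℤ) : 0 ≤ hv X v := by
  rw [hv_eq]
  exact sum_nonneg fun i _ => er_nonneg fun _ _ => ind_nonneg _

/-- **The one-scale theorem implies the mixing.** -/
theorem mx_of (hOS : OS) (h9 : T9) : MX PlaneK := by
  intro A
  obtain ⟨M, C1, hM, hC1, hS⟩ := OSc_of hOS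
  have hM' : (8 : ℝ) ≤ M := by exact_mod_cast hM
  set B : ℝ := (M : ℝ) ^ 8 with hBd
  have hB4 : 4 ≤ B := by
    have : (M : ℝ) ^ 1 ≤ (M : ℝ) ^ 8 := pow_le_pow_right₀ (by linarith) (by norm_num)
    rw [pow_one] at this
    linarith
  set κ : ℝ := 16 * B ^ (A + 1) with hκd
  have hκ : 1 < κ := by
    have : 1 ≤ B ^ (A + 1) := one_le_pow₀ (by linarith)
    linarith
  obtain ⟨Mh, hMh, hN9⟩ := h9 (κ ^ 2) (one_lt_pow₀ hκ (by norm_num))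
  obtain ⟨θ, hθ, hOc⟩ := hS Mh hMh
  set θ' : ℝ := min (θ / (4 * C1)) 1 with hθ'd
  have hθ'0 : 0 < θ' := lt_min (by positivity) one_pos
  have hθ'1 : θ' ≤ 1 := min_le_right _ _
  have hθ'2 : θ' * (4 * C1) ≤ θ := by
    calc θ' * (4 * C1) ≤ θ / (4 * C1) * (4 * C1) :=
          mul_le_mul_of_nonneg_right (min_le_left _ _) (by positivity)
      _ = θ := div_mul_cancel₀ _ (by positivity)
  set r : ℝ := 1 + θ' ^ 2 with hrd
  have hr1 : 1 < r := by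
    have : 0 < θ' ^ 2 := by positivity
    linarith
  have hr2 : r ≤ 2 := by nlinarith
  have hr' : r * (1 - θ' ^ 2) ≤ 1 := by
    rw [hrd]
    nlinarith [sq_nonneg (θ' ^ 2)]
  have hB1 : 1 < B := by linarith
  set η : ℝ := Real.logb B r with hηd
  have hη0 : 0 < η := Real.logb_pos hB1 hr1
  have hηr : B ^ η = r := Real.rpow_logb (by linarith) (by linarith) (by linarith)
  obtain ⟨k0, hk0⟩ := pow_unbounded_of_one_lt ((2 + 16 * κ * B ^ (2 * A)) * r ^ 2) hr1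
  refine ⟨η, hη0, (M ^ 8) ^ (k0 + Mh + 1), ?_⟩
  intro N hN X hX v hv hh y hy i
  obtain ⟨W, hW⟩ := hX
  have hy0 : y ≠ 0 := by
    intro h; rw [h, norm_zero] at hy; exact zero_ne_one hy
  have hb1 : 1 < M ^ 8 := Nat.one_lt_pow (by norm_num) (by omega)
  have hN0 : N ≠ 0 := by
    intro h; rw [h] at hN
    have : 0 < (M ^ 8) ^ (k0 + Mh + 1) := by positivity
    omega
  have hlog : k0 + Mh + 1 ≤ Nat.log (M ^ 8) N := Nat.le_log_of_pow_le hb1 hN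
  obtain ⟨k, hk⟩ : ∃ k, Nat.log (M ^ 8) N = k + 1 := ⟨Nat.log (M ^ 8) N - 1, by omega⟩
  have hk1 : (M ^ 8) ^ (k + 1) ≤ N := by rw [← hk]; exact Nat.pow_log_le_self _ hN0
  have hk2 : N < (M ^ 8) ^ (k + 2) := by
    have := Nat.lt_pow_succ_log_self hb1 N
    rw [hk] at this
    exact this
  have hkk : k0 ≤ k := by omega
  have hkM : Mh ≤ k := by omega
  obtain ⟨Uy, Uh, hLv⟩ := exists_lv hM (by omega) hOc hkM hθ'0.le hθ'2
  have hR0 : 2 * Rs M k 0 + 1 ≤ (N : ℤ) := by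
    have f1 : (M ^ 8) ^ (k + 1) = M ^ 8 * M ^ (8 * k) := by
      rw [← pow_mul]; ring
    have f2 : 1 ≤ M ^ (8 * k) := Nat.one_le_pow _ _ (by omega)
    have f3 : M ^ 1 ≤ M ^ 8 := Nat.pow_le_pow_right (by omega) (by norm_num)
    have f4 : 2 * M ^ (8 * k) + 1 ≤ N := by
      have f5 : M ^ 1 = M := pow_one M
      have f6 : 8 * M ^ (8 * k) ≤ M ^ 8 * M ^ (8 * k) := Nat.mul_le_mul_right _ (by omega)
      rw [← f1] at f6
      omega
    unfold Rs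
    rw [Nat.sub_zero]
    exact_mod_cast f4
  have hG : GE X W := GE_of_plane hW
  have L1 := hLv (X1 X v) _ (GE.tr hG (shS (-v))) ((BB_mono hR0).trans (BB1 hv))
  have L2 := hLv (X2 X v) _ (GE.tr (GE.tr hG (shS (-v))) rotS) ((BB_mono hR0).trans (BB2 hv))
  have t1 := two_copies L1 L2 hκ.le hN9 hr1.le hr' hy (C0_crn (i + 1)) (C0_crn (i + 2))
  rw [er1, er2] at t1
  rw [show i + 2 = (i + 1) + 1 by ring, gn2 X v hy0, gn2 X v hy0, gn1 X v hy0, gn1 X v hy0] at t1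
  have e1 : gn X y (H53.ZF.crn v (i + 1)) * (y * gn X y (H53.ZF.crn v (i + 1))) -
      gn X y (H53.ZF.crn v (i + 1 + 1)) * (y * gn X y (H53.ZF.crn v i)) =
      y * (gn X y (H53.ZF.crn v (i + 1)) ^ 2 -
        gn X y (H53.ZF.crn v i) * gn X y (H53.ZF.crn v (i + 2))) := by ring
  rw [e1, norm_mul, hy, one_mul] at t1
  refine t1.trans ?_
  have hN1 : (1 : ℝ) ≤ N := by exact_mod_cast (by omega : 1 ≤ N)
  have hNB : (N : ℝ) ≤ B ^ (k + 2) := by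
    rw [hBd]
    exact_mod_cast hk2.le
  refine num hB4 hr1.le hr2 hκd hN1 hNB hη0.le hηr ?_ (hv_nn X v) hh
  exact hk0.le.trans (pow_le_pow_right₀ hr1.le hkk)

end Pool.Agent.H39.ZF
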